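import Pool.Agent.W_7d29a1_Z74.URW
import Pool.Agent.W_7d29a1_Z.PB

/-!
STORM Z (MP_7d29a1_pr), window form, BASE: the response of a BUNCH of `m ≤ wd r` unit dislocations inside one interval of the length
`r / 16` is at most `t ^ ε EE r`, for all `t` and all `r` in `[t ^ e, t]`. (helper95, on the files of helper74)
-/

namespace Pool.Agent.W_7d29a1_Z95

open Finset MeasureTheory Filter Topology Pool.Agent.W_7d29a1_F Pool.Agent.W_7d29a1_X Pool.Agent.W_7d29a1_Z Pool.Agent.W_7d29a1_G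
open Pool.Agent.W_7d29a1_Z74
open Pool.Agent.W_7d29a1_SR (In wd wd_lower wd_tendsto wd_growth)
open scoped ENNReal

noncomputable section

variable {μ : Measure ℝ}

/-! ### The deterministic part -/

/-- The comparison of two kernels in two environments. -/
theorem ker_two {K R : ℝ} {H r : ℕ} {η η' : Env} (hη : η ∈ BK μ K R H r) (hη' : η' ∈ BK μ K R H r) {D : ℝ} {a a' : Pt}
    (ha : a ∈ bx H) (ha' : a' ∈ bx H) {k k' : ℤ} (hk : Cn r D k) (h1 : D + |((k' - k : ℤ) : ℝ)| ≤ R * wd μ r)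
    (h2 : D + |((k' - k : ℤ) : ℝ)| ≤ r / 2) :
    W μ 0 η a r k ≤ Real.exp ((K * R ^ K + R) * EE μ r) * W μ 0 η' a' r k' := by
  unfold Pool.Agent.W_7d29a1_Z74.Cn at hk
  have h3 : |(k' : ℝ) - r / 2| ≤ D + |((k' - k : ℤ) : ℝ)| := by
    have e : (k' : ℝ) - r / 2 = ((k : ℝ) - r / 2) + ((k' - k : ℤ) : ℝ) := by push_cast; ring
    rw [e]
    exact (abs_add_le _ _).trans (by linarith)
  have h4 := abs_le.1 (h3.trans h2)
  have h5 : 0 ≤ k' := by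
    have : (0 : ℝ) ≤ k' := by linarith
    exact_mod_cast this
  have h6 : k' ≤ r := by
    have : (k' : ℝ) ≤ r := by linarith
    exact_mod_cast this
  have h7 := (hη' a' ha' k').2 h5 h6 (h3.trans h1)
  have h8 := (hη a ha k).1
  calc W μ 0 η a r k ≤ Real.exp (R * EE μ r) := h8
    _ = Real.exp ((K * R ^ K + R) * EE μ r) * Real.exp (-(K * R ^ K * EE μ r)) := by
      rw [← Real.exp_add]
      congr 1
      ring
    _ ≤ _ := mul_le_mul_of_nonneg_left h7 (Real.exp_pos _).le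

/-- The rows before the window are not shifted. -/
lemma W_shr_before {v : ℕ → ℤ} {s : ℕ} (hv : ∀ k, k < s → v k = 0) (η : Env) (a : Pt) (n : ℕ) (y : ℤ) (ha : 0 ≤ a.1)
    (h : a.1 + n ≤ s) : W μ 0 (shr 0 v η) a n y = W μ 0 η a n y := by
  refine W_rows 0 a n y fun p hp hp' => ?_
  unfold shr
  have e : sv v 0 p.1.toNat = 0 := by
    unfold sv
    refine sum_eq_zero fun k hk => ?_
    rw [mem_Ico] at hk
    exact hv k (by omega)
  rw [e, sub_zero]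

/-- The rows behind the window are shifted by `M`. -/
lemma W_shr_after {v : ℕ → ℤ} {q t : ℕ} {M : ℤ} (hM : sv v 0 q = M) (hv : ∀ k, q ≤ k → k < t → v k = 0) (η : Env) (a : Pt) (n : ℕ)
    (y : ℤ) (ha : (q : ℤ) ≤ a.1) (h : a.1 + n ≤ t) : W μ 0 (shr 0 v η) (a.1, a.2 + M) n y = W μ 0 η a n y := by
  have e1 : ((a.1, a.2 + M) : Pt) = a + (0, M) := by
    rw [Prod.ext_iff]
    simp
  rw [e1, ← W_sh]
  refine W_rows 0 _ n y fun p hp hp' => ?_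
  unfold sh shr
  have h0 : p.1 + 0 = p.1 := add_zero _
  have e : sv v 0 (p + ((0 : ℤ), M)).1.toNat = M := by
    rw [Prod.fst_add]
    simp only
    rw [h0]
    have h1 : q ≤ p.1.toNat := by omega
    have h2 : sv v 0 p.1.toNat = sv v 0 q + sv v q p.1.toNat := sv_split v (Nat.zero_le _) h1
    rw [h2, hM]
    have h3 : sv v q p.1.toNat = 0 := by
      unfold sv
      refine sum_eq_zero fun k hk => ?_
      rw [mem_Ico] at hk
      exact hv k hk.1 (by omega)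
    rw [h3, add_zero]
  rw [e]
  congr 1
  rw [Prod.ext_iff]
  simp

/-- The bad window events of the kernel `[u, u']`: in the environment and in the sheared environment. -/
def EV (μ : Measure ℝ) (v : ℕ → ℤ) (M : ℤ) (D : ℝ) (u m r n : ℕ) (y : ℤ) : Set Env :=
  {η | sh ((u : ℤ), 0) η ∈ BadW μ m r n y D ∨ sh ((u : ℤ), 0) (shr 0 v η) ∈ BadW μ m r n (y + M) D}

/-- The kernel in the sheared environment. -/
lemma fk_shr0 {v : ℕ → ℤ} {s q t : ℕ} {M : ℤ} (hv0 : ∀ k, k < s → v k = 0) (hM : sv v 0 q = M)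
    (hv : ∀ k, q ≤ k → k < t → v k = 0) (η : Env) {u u' : ℕ} (hu : u ≤ s) (hq : q ≤ u') (hsq : s ≤ q) (hut : u' ≤ t) (y : ℤ) :
    fk μ v η u u' 0 y = Real.log (W μ 0 (shr 0 v η) ((u : ℤ), 0) (u' - u) (y + M)) := by
  have e1 : sv v 0 u = 0 := by
    unfold sv
    refine sum_eq_zero fun k hk => ?_
    rw [mem_Ico] at hk
    exact hv0 k (by omega)
  have e2 : sv v 0 u' = M := by
    rw [sv_split v (Nat.zero_le _) hq, hM]
    have h3 : sv v q u' = 0 := by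
      unfold sv
      refine sum_eq_zero fun k hk => ?_
      rw [mem_Ico] at hk
      exact hv k hk.1 (by omega)
    rw [h3, add_zero]
  have e3 := fk_shr (μ := μ) v 0 η (show u ≤ u' by omega) 0 (y + M)
  rw [e1, e2, add_zero, sub_zero, add_sub_cancel_right] at e3
  rw [← e3, fk_zero, sub_zero]

/-- **The response of a pattern inside a window**, deterministic form. -/
theorem det_win {K R : ℝ} {H r : ℕ} {v : ℕ → ℤ} {η : Env} (hη : η ∈ BK μ K R H r) (hη' : shr 0 v η ∈ BK μ K R H r) {D : ℝ}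
    {s t : ℕ} {M : ℤ} (hv0 : ∀ k, k < s → v k = 0) (hM : sv v 0 (s + r) = M) (hv : ∀ k, s + r ≤ k → k < t → v k = 0)
    {u m n : ℕ} {y : ℤ} (hum : u + m = s) (hut : s + r + n ≤ t)
    (hH : (t : ℤ) + |M| ≤ H) (h1 : D + |(M : ℝ)| ≤ R * wd μ r) (h2 : D + |(M : ℝ)| ≤ r / 2)
    (h0 : 0 ≤ y) (hy : y ≤ ((m + r + n : ℕ) : ℤ)) (hE : η ∉ EV μ v M D u m r n y) :
    |fk μ v η u (s + r + n) 0 y - fk μ 0 η u (s + r + n) 0 y| ≤ (K * R ^ K + R) * EE μ r + Real.log 2 := by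
  unfold EV at hE
  rw [Set.mem_ofPred_eq, not_or] at hE
  obtain ⟨g1, g2⟩ := hE
  have g1 := not_BadW g1
  have g2 := not_BadW g2
  have eN : s + r + n - u = m + r + n := by omega
  rw [fk_shr0 hv0 hM hv η (by omega) (by omega) (by omega) hut y, fk_zero, sub_zero, eN]
  -- the weights as sums over the ends of the window
  have f0 : ∀ (ζ : Env) (Y : ℤ), W μ 0 ζ ((u : ℤ), 0) (m + r + n) Y =
      ∑ z ∈ Icc (0 : ℤ) m, ∑ b ∈ Icc (Y - n) Y, W μ 0 ζ ((u : ℤ), 0) m z * W μ 0 ζ ((s : ℤ), z) r (b - z) *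
        W μ 0 ζ (((s + r : ℕ) : ℤ), b) n (Y - b) := by
    intro ζ Y
    rw [add_assoc, ← ZJ_zero, ZJ_after]
    refine sum_congr rfl fun z _ => sum_congr rfl fun b _ => ?_
    have e1 : (((u : ℤ), (0 : ℤ)) : Pt).1 + m = s := by simp only; omega
    have e2 : (((u : ℤ), (0 : ℤ)) : Pt).1 + m + r = ((s + r : ℕ) : ℤ) := by simp only; push_cast; omega
    rw [e2, e1]
    simp only [zero_add, add_zero, sub_zero]
  have f1 : ∀ (ζ : Env) (Y : ℤ), ZA μ 0 ζ ((u : ℤ), 0) m r n 0 Y (Cn r D) =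
      ∑ z ∈ Icc (0 : ℤ) m, ∑ b ∈ Icc (Y - n) Y, if Cn r D (b - z) then
        W μ 0 ζ ((u : ℤ), 0) m z * W μ 0 ζ ((s : ℤ), z) r (b - z) * W μ 0 ζ (((s + r : ℕ) : ℤ), b) n (Y - b) else 0 := by
    intro ζ Y
    unfold ZA
    refine sum_congr rfl fun z _ => sum_congr rfl fun b _ => ?_
    have e1 : (((u : ℤ), (0 : ℤ)) : Pt).1 + m = s := by simp only; omega
    have e2 : (((u : ℤ), (0 : ℤ)) : Pt).1 + m + r = ((s + r : ℕ) : ℤ) := by simp only; push_cast; omega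
    rw [e2, e1]
    simp only [zero_add, add_zero, sub_zero]
  -- the sheared weights in the same form
  have k1 : ∀ z ∈ Icc (0 : ℤ) m, W μ 0 (shr 0 v η) ((u : ℤ), 0) m z = W μ 0 η ((u : ℤ), 0) m z := fun z _ =>
    W_shr_before hv0 η _ _ _ (Int.natCast_nonneg u) (by simp only; omega)
  have k2 : ∀ b Y : ℤ, W μ 0 (shr 0 v η) (((s + r : ℕ) : ℤ), b + M) n Y = W μ 0 η (((s + r : ℕ) : ℤ), b) n Y := fun b Y =>
    W_shr_after hM hv η (((s + r : ℕ) : ℤ), b) n Y le_rfl (by simp only; omega)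
  have q1 : W μ 0 (shr 0 v η) ((u : ℤ), 0) (m + r + n) (y + M) =
      ∑ z ∈ Icc (0 : ℤ) m, ∑ b ∈ Icc (y - n) y, W μ 0 η ((u : ℤ), 0) m z * W μ 0 (shr 0 v η) ((s : ℤ), z) r (b + M - z) *
        W μ 0 η (((s + r : ℕ) : ℤ), b) n (y - b) := by
    rw [f0]
    refine sum_congr rfl fun z hz => ?_
    rw [sum_Icc_shift n (y + M) M, add_sub_cancel_right]
    refine sum_congr rfl fun b _ => ?_
    rw [k1 z hz, k2, show y + M - (b + M) = y - b by ring]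
  have q2 : ZA μ 0 (shr 0 v η) ((u : ℤ), 0) m r n 0 (y + M) (Cn r D) =
      ∑ z ∈ Icc (0 : ℤ) m, ∑ b ∈ Icc (y - n) y, if Cn r D (b + M - z) then
        W μ 0 η ((u : ℤ), 0) m z * W μ 0 (shr 0 v η) ((s : ℤ), z) r (b + M - z) * W μ 0 η (((s + r : ℕ) : ℤ), b) n (y - b)
        else 0 := by
    rw [f1]
    refine sum_congr rfl fun z hz => ?_
    rw [sum_Icc_shift n (y + M) M, add_sub_cancel_right]
    refine sum_congr rfl fun b _ => ?_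
    rw [k1 z hz, k2, show y + M - (b + M) = y - b by ring]
  rw [q1, q2] at g2
  rw [f0, f1] at g1
  rw [q1, f0 η y]
  -- the boxes
  have hM0 := abs_nonneg M
  have hbx : ∀ z ∈ Icc (0 : ℤ) m, (((s : ℤ), z) : Pt) ∈ bx H := by
    intro z hz
    rw [mem_Icc] at hz
    rw [mem_bx]
    simp only
    rw [abs_of_nonneg hz.1, abs_of_nonneg (Int.natCast_nonneg s)]
    omega
  have hk : ∀ a b c : ℤ, a - b - (c - b) = a - c := by intro a b c; ring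
  have A1 : ∑ z ∈ Icc (0 : ℤ) m, ∑ b ∈ Icc (y - n) y, W μ 0 η ((u : ℤ), 0) m z * W μ 0 η ((s : ℤ), z) r (b - z) *
        W μ 0 η (((s + r : ℕ) : ℤ), b) n (y - b) ≤ 2 * Real.exp ((K * R ^ K + R) * EE μ r) *
      ∑ z ∈ Icc (0 : ℤ) m, ∑ b ∈ Icc (y - n) y, W μ 0 η ((u : ℤ), 0) m z * W μ 0 (shr 0 v η) ((s : ℤ), z) r (b + M - z) *
        W μ 0 η (((s + r : ℕ) : ℤ), b) n (y - b) := by
    refine resp_pure (Icc (0 : ℤ) m) (Icc (y - n) y) (fun z => W μ 0 η ((u : ℤ), 0) m z)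
      (fun b => W μ 0 η (((s + r : ℕ) : ℤ), b) n (y - b)) (fun z b => W μ 0 η ((s : ℤ), z) r (b - z))
      (fun z b => W μ 0 (shr 0 v η) ((s : ℤ), z) r (b + M - z)) (fun z b => Cn r D (b - z))
      (fun _ _ => Pool.Agent.W_7d29a1_Z74.W_nonneg _ _ _ _) (fun _ _ => Pool.Agent.W_7d29a1_Z74.W_nonneg _ _ _ _) (fun _ _ _ _ => Pool.Agent.W_7d29a1_Z74.W_nonneg _ _ _ _) (fun z hz b _ hG => ?_) g1
    exact ker_two hη hη' (hbx z hz) (hbx z hz) hG (by rw [show b + M - z - (b - z) = M by ring]; exact h1)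
      (by rw [show b + M - z - (b - z) = M by ring]; exact h2)
  have A2 : ∑ z ∈ Icc (0 : ℤ) m, ∑ b ∈ Icc (y - n) y, W μ 0 η ((u : ℤ), 0) m z * W μ 0 (shr 0 v η) ((s : ℤ), z) r (b + M - z) *
        W μ 0 η (((s + r : ℕ) : ℤ), b) n (y - b) ≤ 2 * Real.exp ((K * R ^ K + R) * EE μ r) *
      ∑ z ∈ Icc (0 : ℤ) m, ∑ b ∈ Icc (y - n) y, W μ 0 η ((u : ℤ), 0) m z * W μ 0 η ((s : ℤ), z) r (b - z) *
        W μ 0 η (((s + r : ℕ) : ℤ), b) n (y - b) := by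
    refine resp_pure (Icc (0 : ℤ) m) (Icc (y - n) y) (fun z => W μ 0 η ((u : ℤ), 0) m z)
      (fun b => W μ 0 η (((s + r : ℕ) : ℤ), b) n (y - b)) (fun z b => W μ 0 (shr 0 v η) ((s : ℤ), z) r (b + M - z))
      (fun z b => W μ 0 η ((s : ℤ), z) r (b - z)) (fun z b => Cn r D (b + M - z))
      (fun _ _ => Pool.Agent.W_7d29a1_Z74.W_nonneg _ _ _ _) (fun _ _ => Pool.Agent.W_7d29a1_Z74.W_nonneg _ _ _ _) (fun _ _ _ _ => Pool.Agent.W_7d29a1_Z74.W_nonneg _ _ _ _) (fun z hz b _ hG => ?_) g2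
    have e : |((b - z - (b + M - z) : ℤ) : ℝ)| = |(M : ℝ)| := by
      rw [show b - z - (b + M - z) = -M by ring, Int.cast_neg, abs_neg]
    exact ker_two hη' hη (hbx z hz) (hbx z hz) hG (by rw [e]; exact h1) (by rw [e]; exact h2)
  refine abs_log_le ?_ A1 A2
  rw [← f0 η y]
  exact Pool.Agent.W_7d29a1_Z74.W_pos η _ h0 hy

/-! ### The probability -/

open scoped Classical in
/-- The bad events. -/
def QB (μ : Measure ℝ) (v : ℕ → ℤ) (M : ℤ) (t s r : ℕ) (D w : ℝ) (u u' : ℕ) (y : ℤ) : Set Env :=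
  if u ≤ s ∧ s + r ≤ u' ∧ Adm t w u u' y then EV μ v M D u (s - u) r (u' - (s + r)) y else ∅

/-- The probability of one bad event. -/
theorem law_QB [IsProbabilityMeasure μ] {v : ℕ → ℤ} {M : ℤ} {t s r : ℕ} {D w κ δ p : ℝ} (hr : 1 ≤ r)
    (hD : D = (t : ℝ) ^ κ * wd' μ r)
    (hns : ∀ N : ℕ, t ≤ 16 * N → N ≤ t → ∀ y : ℤ, 0 ≤ y → y ≤ N → |2 * (y : ℝ) - N| ≤ 2 * ((t : ℝ) ^ δ * wd' μ N) →
      P1 μ N y (fun _ S => ¬ ∀ i n : ℕ, 1 ≤ n → i + n ≤ N →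
        |2 * ((pos S (i + n) - pos S i : ℤ) : ℝ) - n| ≤ 2 * ((t : ℝ) ^ κ * wd' μ n)) ≤ ENNReal.ofReal p)
    (hw1 : ∀ N : ℕ, t ≤ 16 * N → N ≤ t → 2 * w + 2 * |(M : ℝ)| ≤ 2 * ((t : ℝ) ^ δ * wd' μ N))
    (hw2 : 2 * w + 2 * |(M : ℝ)| ≤ t / 16)
    (u u' : ℕ) (y : ℤ) : law μ (QB μ v M t s r D w u u' y) ≤ 4 * ENNReal.ofReal p := by
  have hj := abs_nonneg (M : ℝ)
  have hj1 := neg_abs_le (M : ℝ)
  have hj2 := le_abs_self (M : ℝ)
  have key : ∀ m n : ℕ, Adm t w u u' y → m + r + n = u' - u →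
      0 ≤ y ∧ y ≤ ((m + r + n : ℕ) : ℤ) ∧ 0 ≤ y + M ∧ y + M ≤ ((m + r + n : ℕ) : ℤ) ∧
      P1 μ (m + r + n) y (fun _ S => ¬ Cn r D (pos S (m + r) - pos S m)) ≤ ENNReal.ofReal p ∧
      P1 μ (m + r + n) (y + M) (fun _ S => ¬ Cn r D (pos S (m + r) - pos S m)) ≤ ENNReal.ofReal p := by
    intro m n hA hN
    obtain ⟨a1, a2, a3, a4⟩ := hA
    rw [hN]
    have hNr : ((u' - u : ℕ) : ℝ) = (u' : ℝ) - u := by
      rw [Nat.cast_sub a2]
    rw [← hNr] at a4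
    have hNt : (t : ℝ) / 16 ≤ ((u' - u : ℕ) : ℝ) := by
      rw [div_le_iff₀ (by norm_num)]
      have : (t : ℝ) ≤ 16 * ((u' - u : ℕ) : ℝ) := by exact_mod_cast a1
      linarith
    have a5 := abs_le.1 a4
    have b1 : 0 ≤ y := by
      have : (0 : ℝ) ≤ y := by linarith
      exact_mod_cast this
    have b1' : y ≤ ((u' - u : ℕ) : ℤ) := by
      have : (y : ℝ) ≤ ((u' - u : ℕ) : ℝ) := by linarith
      exact_mod_cast this
    have b2 : 0 ≤ y + M := by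
      have : (0 : ℝ) ≤ y + M := by linarith
      exact_mod_cast this
    have b2' : y + M ≤ ((u' - u : ℕ) : ℤ) := by
      have : (y : ℝ) + M ≤ ((u' - u : ℕ) : ℝ) := by linarith
      exact_mod_cast this
    have c1 := hw1 (u' - u) a1 (by omega)
    have c2 : |2 * ((y + M : ℤ) : ℝ) - ((u' - u : ℕ) : ℝ)| ≤ 2 * ((t : ℝ) ^ δ * wd' μ (u' - u)) := by
      rw [abs_le]
      push_cast
      constructor <;> linarith
    have c3 : |2 * (y : ℝ) - ((u' - u : ℕ) : ℝ)| ≤ 2 * ((t : ℝ) ^ δ * wd' μ (u' - u)) := by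
      rw [abs_le]
      constructor <;> linarith
    have mono : ∀ S : Finset ℕ, (¬ Cn r D (pos S (m + r) - pos S m)) → ¬ ∀ i n : ℕ, 1 ≤ n → i + n ≤ u' - u →
        |2 * ((pos S (i + n) - pos S i : ℤ) : ℝ) - n| ≤ 2 * ((t : ℝ) ^ κ * wd' μ n) := by
      intro S h1 h2
      refine h1 ?_
      unfold Pool.Agent.W_7d29a1_Z74.Cn
      have h3 := h2 m r hr (by omega)
      rw [← hD] at h3
      rw [abs_le] at h3 ⊢
      constructor <;> linarith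
    refine ⟨b1, b1', b2, b2', ?_, ?_⟩
    · exact (P1_le_of _ _ mono).trans (hns _ a1 (by omega) y b1 b1' c3)
    · exact (P1_le_of _ _ mono).trans (hns _ a1 (by omega) (y + M) b2 b2' c2)
  classical
  unfold QB
  split_ifs with hc
  · obtain ⟨h1, h2, hA⟩ := hc
    obtain ⟨d1, d2, d3, d4, d5, d6⟩ := key (s - u) (u' - (s + r)) hA (by omega)
    exact law_two (shr_mp 0 v) u (s - u) r (u' - (s + r)) y (y + M) D d1 d2 d3 d4 d5 d6
  · rw [measure_empty]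
    exact zero_le

/-- The inclusion. -/
theorem rspB_subset {K R : ℝ} {H r : ℕ} {v : ℕ → ℤ} {D : ℝ} {s t : ℕ} {M : ℤ} {w A : ℝ}
    (hv0 : ∀ k, k < s → v k = 0) (hM : sv v 0 (s + r) = M) (hv : ∀ k, s + r ≤ k → k < t → v k = 0)
    (hs : t ≤ 4 * s) (hs' : 4 * (s + r) ≤ 3 * t) (ht : 1 ≤ t)
    (hH : (t : ℤ) + |M| ≤ H) (h1 : D + |(M : ℝ)| ≤ R * wd μ r) (h2 : D + |(M : ℝ)| ≤ r / 2)
    (hw2 : 2 * w + 2 * |(M : ℝ)| ≤ t / 16) (hA : (K * R ^ K + R) * EE μ r + Real.log 2 ≤ A) :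
    {η | ∃ u u' : ℕ, 4 * u ≤ t ∧ 3 * t ≤ 4 * u' ∧ u' ≤ t ∧ ∃ y : ℤ, |2 * (y : ℝ) - ((u' : ℝ) - u)| ≤ 2 * w ∧
      A < |fk μ v η u u' 0 y - fk μ 0 η u u' 0 y|} ⊆
    ((BK μ K R H r)ᶜ ∪ shr 0 v ⁻¹' (BK μ K R H r)ᶜ) ∪
      ⋃ u ∈ range (t + 1), ⋃ u' ∈ range (t + 1), ⋃ y ∈ Icc (0 : ℤ) t, QB μ v M t s r D w u u' y := by
  rintro η ⟨u, u', a1, a2, a3, y, a4, a5⟩
  by_contra hc
  rw [Set.mem_union, Set.mem_union, not_or, not_or, Set.notMem_compl_iff, Set.mem_preimage, Set.notMem_compl_iff] at hc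
  obtain ⟨⟨hη, hη'⟩, hc⟩ := hc
  have hj := abs_nonneg (M : ℝ)
  have hNr : ((u' - u : ℕ) : ℝ) = (u' : ℝ) - u := by
    rw [Nat.cast_sub (by omega)]
  have hNt : (t : ℝ) / 16 ≤ ((u' - u : ℕ) : ℝ) := by
    rw [div_le_iff₀ (by norm_num)]
    have : (t : ℝ) ≤ 16 * ((u' - u : ℕ) : ℝ) := by
      have : t ≤ 16 * (u' - u) := by omega
      exact_mod_cast this
    linarith
  have a6 := abs_le.1 a4
  have b1 : 0 ≤ y := by
    have : (0 : ℝ) ≤ y := by linarith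
    exact_mod_cast this
  have b2 : y ≤ ((u' - u : ℕ) : ℤ) := by
    have : (y : ℝ) ≤ ((u' - u : ℕ) : ℝ) := by linarith
    exact_mod_cast this
  have hQ : η ∉ QB μ v M t s r D w u u' y := by
    intro hq
    refine hc ?_
    simp only [Set.mem_iUnion]
    exact ⟨u, mem_range.2 (by omega), u', mem_range.2 (by omega), y, mem_Icc.2 ⟨b1, by omega⟩, hq⟩
  unfold QB at hQ
  rw [if_pos ⟨by omega, by omega, ⟨by omega, by omega, a3, a4⟩⟩] at hQ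
  have e1 : s + r + (u' - (s + r)) = u' := by omega
  have e2 : s - u + r + (u' - (s + r)) = u' - u := by omega
  have key := det_win (μ := μ) hη hη' (D := D) (t := t) (u := u) (m := s - u) (n := u' - (s + r)) (y := y) hv0 hM hv
    (by omega) (by omega) hH h1 h2 b1 (by rw [e2]; exact b2) hQ
  rw [e1] at key
  linarith

/-- The union of the bad events. -/
theorem union_QB {v : ℕ → ℤ} {M : ℤ} {t s r : ℕ} {D w p : ℝ}
    (hk0 : ∀ (u u' : ℕ) (y : ℤ), law μ (QB μ v M t s r D w u u' y) ≤ 4 * ENNReal.ofReal p) :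
    law μ (⋃ u ∈ range (t + 1), ⋃ u' ∈ range (t + 1), ⋃ y ∈ Icc (0 : ℤ) t, QB μ v M t s r D w u u' y) ≤
      ENNReal.ofReal (((t : ℝ) + 1) ^ 3 * (4 * p)) := by
  have k1 : law μ (⋃ u ∈ range (t + 1), ⋃ u' ∈ range (t + 1), ⋃ y ∈ Icc (0 : ℤ) t, QB μ v M t s r D w u u' y) ≤
      ∑ u ∈ range (t + 1), ∑ u' ∈ range (t + 1), ∑ y ∈ Icc (0 : ℤ) t, 4 * ENNReal.ofReal p := by
    refine (measure_biUnion_finset_le _ _).trans (sum_le_sum fun u _ => ?_)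
    refine (measure_biUnion_finset_le _ _).trans (sum_le_sum fun u' _ => ?_)
    exact (measure_biUnion_finset_le _ _).trans (sum_le_sum fun y _ => hk0 u u' y)
  refine k1.trans (le_of_eq ?_)
  rw [sum_const, sum_const, sum_const, card_range, Int.card_Icc]
  have e5 : ((t : ℤ) + 1 - 0).toNat = t + 1 := by omega
  rw [e5, smul_smul, smul_smul, nsmul_eq_mul]
  rw [ENNReal.ofReal_mul (by positivity), ENNReal.ofReal_mul (by norm_num)]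
  have e6 : ENNReal.ofReal (((t : ℝ) + 1) ^ 3) = (((t + 1) * (t + 1) * (t + 1) : ℕ) : ℝ≥0∞) := by
    rw [← ENNReal.ofReal_natCast]
    congr 1
    push_cast
    ring
  have e7 : ENNReal.ofReal 4 = 4 := by norm_num
  rw [e6, e7, mul_assoc (t + 1)]

/-! ### The pattern -/

lemma pat_bunch {t s m : ℕ} {k : ℕ} (hk : k < t) :
    pat t 0 (Ico s (s + m)) (fun _ => 1) k = if s ≤ k ∧ k < s + m then 1 else 0 := by
  unfold pat
  rw [Nat.sub_zero, Nat.mod_eq_of_lt (by omega)]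
  simp only [mem_Ico, Nat.zero_le, true_and]

lemma sv_bunch {t s m r : ℕ} (hmr : m ≤ r) (hs : s + r ≤ t) :
    sv (pat t 0 (Ico s (s + m)) fun _ => 1) 0 (s + r) = m := by
  unfold sv
  have e : ∀ k ∈ Ico 0 (s + r), pat t 0 (Ico s (s + m)) (fun _ => 1) k = if k ∈ Ico s (s + m) then 1 else 0 := by
    intro k hk
    rw [mem_Ico] at hk
    rw [pat_bunch (by omega)]
    simp only [mem_Ico]
  rw [sum_congr rfl e, sum_ite_mem]
  have e2 : Ico 0 (s + r) ∩ Ico s (s + m) = Ico s (s + m) := by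
    refine inter_eq_right.2 fun k hk => ?_
    rw [mem_Ico] at hk ⊢
    omega
  rw [e2, sum_const, Nat.card_Ico, nsmul_eq_mul, mul_one]
  congr 1
  omega

/-- Monotonicity of `Rsp`. -/
theorem rsp_mono {t : ℕ} {I : Finset ℕ} {j : ℤ} {w w' A A' p p' : ℝ} (hw : w' ≤ w) (hA : A ≤ A') (hp : p ≤ p')
    (h : Rsp μ t I j w A p) : Rsp μ t I j w' A' p' := by
  unfold Rsp at h ⊢
  refine (measure_mono fun η hη => ?_).trans (h.trans (ENNReal.ofReal_le_ofReal hp))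
  obtain ⟨u, u', h1, h2, h3, y, h4, h5⟩ := hη
  exact ⟨u, u', h1, h2, h3, y, h4.trans (by linarith), lt_of_le_of_lt hA h5⟩

/-- The cone of `Rsp` is in the cone of NS. -/
lemma numB_cone1 {δ δ₁ t N wt wN j : ℝ} (ht1 : 1 ≤ t) (hδ0 : 0 < δ) (hδ1 : δ ≤ δ₁ / 2) (p4 : 96 ≤ t ^ (δ₁ / 2)) (hN0 : 0 < N)
    (hN1 : t ≤ 16 * N) (hwN : 1 ≤ wN) (hwt : 0 ≤ wt) (k1 : N * wt ≤ 2 * (t * wN)) (hj : j ≤ 2 * wt) :
    2 * (t ^ δ * wt) + 2 * j ≤ 2 * (t ^ δ₁ * wN) := by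
  have ht0 : 0 < t := by linarith
  have htδ : 1 ≤ t ^ δ := Real.one_le_rpow ht1 hδ0.le
  have k2 : wt ≤ 32 * wN := by
    have k3 : N * wt ≤ N * (32 * wN) := by
      have : t * wN ≤ 16 * N * wN := mul_le_mul_of_nonneg_right hN1 (by linarith)
      linarith
    exact le_of_mul_le_mul_left k3 hN0
  have k4 : t ^ δ₁ = t ^ (δ₁ / 2) * t ^ (δ₁ / 2) := by
    rw [← Real.rpow_add ht0]
    congr 1
    ring
  have k5 : t ^ δ ≤ t ^ (δ₁ / 2) := Real.rpow_le_rpow_of_exponent_le ht1 hδ1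
  have k6 : 96 * t ^ δ ≤ t ^ δ₁ := by
    rw [k4]
    exact mul_le_mul p4 k5 (by positivity) (by positivity)
  have k7 : t ^ δ * wt ≤ t ^ δ * (32 * wN) := mul_le_mul_of_nonneg_left k2 (by positivity)
  have k8 : 96 * t ^ δ * wN ≤ t ^ δ₁ * wN := mul_le_mul_of_nonneg_right k6 (by linarith)
  have k9 : wt ≤ t ^ δ * wt := le_mul_of_one_le_left hwt htδ
  linarith

variable [IsProbabilityMeasure μ] {c C : ℝ} {n₀ : ℕ}

/-- **The response of a bunch of unit dislocations.** -/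
theorem rsp_bunch (h : In μ c C n₀) (hF : HF2 μ) (hns : NSs μ) {e ε : ℝ} (he : 0 < e) (hε : 0 < ε) :
    ∃ δ c' : ℝ, 0 < δ ∧ 0 < c' ∧ ∃ t₀ : ℕ, ∀ t : ℕ, t₀ ≤ t → ∀ r : ℕ, (t : ℝ) ^ e ≤ r → r ≤ t →
      ∀ m : ℕ, (m : ℝ) ≤ wd μ r → Ico (t / 2) (t / 2 + m) ⊆ Core t ∧
      Rsp μ t (Ico (t / 2) (t / 2 + m)) 1 ((t : ℝ) ^ δ * wd μ t) ((t : ℝ) ^ ε * EE μ r) (Real.exp (-(t : ℝ) ^ c')) := by
  obtain ⟨K₀, A₀, a₀, g₀, hK₀, hA₀, ha₀, hg₀, hg₀1, hBK⟩ := BK_prob h hF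
  obtain ⟨Kv, av, hKv, hav, hav1, hvA⟩ := vA_neg h hF
  obtain ⟨n₁, hwl⟩ := wd_lower h
  obtain ⟨n₃, hwm⟩ := wd_le_two_mul h
  obtain ⟨n₂, hw1⟩ := (tendsto_atTop.1 (wd_tendsto h) 1).exists_forall_of_atTop
  obtain ⟨κ, hκ⟩ : ∃ κ : ℝ, κ = min (av * (e / 2) / 2) (ε / (2 * K₀)) := ⟨_, rfl⟩
  have hκ0 : 0 < κ := by rw [hκ]; exact lt_min (by positivity) (by positivity)
  have hκ1 : κ ≤ av * (e / 2) / 2 := by rw [hκ]; exact min_le_left _ _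
  have hκ2 : κ ≤ ε / (2 * K₀) := by rw [hκ]; exact min_le_right _ _
  have hκ2' : κ * K₀ ≤ ε / 2 := by
    rw [le_div_iff₀ (by positivity)] at hκ2
    linarith
  have hκ3 : κ ≤ ε / 2 := by
    have : κ ≤ κ * K₀ := le_mul_of_one_le_right hκ0.le hK₀
    linarith
  obtain ⟨δ₁, c₁, hδ₁, hc₁, L₀, hns'⟩ := hns κ hκ0
  obtain ⟨δ, hδ⟩ : ∃ δ : ℝ, δ = min (δ₁ / 2) (av / 2) := ⟨_, rfl⟩
  have hδ0 : 0 < δ := by rw [hδ]; exact lt_min (by positivity) (by positivity)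
  have hδ1 : δ ≤ δ₁ / 2 := by rw [hδ]; exact min_le_left _ _
  have hδ2 : δ ≤ av / 2 := by rw [hδ]; exact min_le_right _ _
  obtain ⟨cc, hcc⟩ : ∃ cc : ℝ, cc = min c₁ (κ * g₀) / 2 := ⟨_, rfl⟩
  have hm0 : 0 < min c₁ (κ * g₀) := lt_min hc₁ (by positivity)
  have hcc0 : 0 < cc := by rw [hcc]; linarith
  have hcc1 : cc < c₁ := by
    have := min_le_left c₁ (κ * g₀)
    rw [hcc]
    linarith
  have hcc2 : cc < κ * g₀ := by
    have := min_le_right c₁ (κ * g₀)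
    rw [hcc]
    linarith
  -- the large times
  have hev : ∀ᶠ t : ℕ in atTop, (L₀ ≤ t ∧ 64 ≤ t ∧ 16 * n₁ ≤ t ∧ 16 * n₂ ≤ t) ∧
      ((32 : ℝ) * ((n₁ : ℝ) + n₂ + n₃ + 1) ≤ (t : ℝ) ^ e ∧ 32 ≤ (t : ℝ) ^ (e / 2)) ∧
      (4 * (2 * Kv) ≤ (t : ℝ) ^ (av * (e / 2) / 2) ∧ 96 ≤ (t : ℝ) ^ (δ₁ / 2) ∧ 64 ≤ (t : ℝ) ^ κ ∧
        Kv * (t : ℝ) ^ (1 - av / 2) ≤ 1 / 96 * (t : ℝ) ^ (1 : ℝ)) ∧
      ((K₀ * 2 ^ K₀ + 3) * (t : ℝ) ^ (ε / 2) ≤ 1 * (t : ℝ) ^ ε) ∧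
      (100 * A₀ * (t : ℝ) ^ (3 : ℝ) * Real.exp (-(a₀ * (t : ℝ) ^ (κ * g₀))) ≤ 1 / 2 * Real.exp (-(t : ℝ) ^ cc)) ∧
      (32 * (t : ℝ) ^ (3 : ℝ) * Real.exp (-(1 * (t : ℝ) ^ c₁)) ≤ 1 / 2 * Real.exp (-(t : ℝ) ^ cc)) ∧
      (3 / 2 * (t : ℝ) ^ (0 : ℝ) * Real.exp (-(1 * (t : ℝ) ^ cc)) ≤ 1 / 2 * Real.exp (-(t : ℝ) ^ (cc / 2))) := by
    refine ((eventually_ge_atTop L₀).and ((eventually_ge_atTop 64).and ((eventually_ge_atTop (16 * n₁)).and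
      (eventually_ge_atTop (16 * n₂))))).and (((ev_pow he _).and (ev_pow (by positivity) _)).and
      (((ev_pow (by positivity) _).and ((ev_pow (by positivity) _).and ((ev_pow hκ0 _).and
        (ev_pow_le (by linarith) (by norm_num))))).and
      ((ev_pow_le (by linarith) one_pos).and ((ev_exp (by positivity) ha₀ (by positivity) hcc2 3).and
      ((ev_exp (by norm_num) one_pos hc₁ hcc1 3).and (ev_exp (by norm_num) one_pos hcc0 (by linarith) 0))))))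
  obtain ⟨t₀, ht₀⟩ := hev.exists_forall_of_atTop
  refine ⟨δ, cc / 2, hδ0, by linarith, t₀, fun t ht r' hre' hrt' m hm => ?_⟩
  obtain ⟨⟨s1, s2, s3, s4⟩, ⟨p1, p2⟩, ⟨p3, p4, p9, p5⟩, p6, p7, p8, p10⟩ := ht₀ t ht
  clear hev ht₀ hns
  rw [Real.rpow_one] at p5
  rw [one_mul] at p6 p8 p10
  rw [Real.rpow_zero, mul_one] at p10
  have ht64 : (64 : ℝ) ≤ t := by exact_mod_cast s2
  have ht1 : (1 : ℝ) ≤ t := by linarith
  have ht0 : (0 : ℝ) < t := by linarith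
  have hn1' : (0 : ℝ) ≤ n₁ := Nat.cast_nonneg _
  have hn2' : (0 : ℝ) ≤ n₂ := Nat.cast_nonneg _
  have hn3' : (0 : ℝ) ≤ n₃ := Nat.cast_nonneg _
  -- the window
  obtain ⟨r, hr⟩ : ∃ r : ℕ, r = r' / 16 := ⟨_, rfl⟩
  have hr32 : 32 * (n₁ + n₂ + n₃ + 1) ≤ r' := by
    have : (32 : ℝ) * ((n₁ : ℝ) + n₂ + n₃ + 1) ≤ r' := by linarith
    exact_mod_cast this
  have hr'1 : r' ≤ 32 * r := by omega
  have hr'2 : 16 * r ≤ r' := by omega
  have hr'1R : (r' : ℝ) ≤ 32 * r := by exact_mod_cast hr'1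
  have hr'2R : (16 : ℝ) * r ≤ r' := by exact_mod_cast hr'2
  have hrt'R : (r' : ℝ) ≤ t := by exact_mod_cast hrt'
  have hrn1 : n₁ ≤ r := by omega
  have hrn2 : n₂ ≤ r := by omega
  have hrn3 : n₃ ≤ r := by omega
  have hr1' : 1 ≤ r := by omega
  have hr1 : (1 : ℝ) ≤ r := by exact_mod_cast hr1'
  have hr0 : (0 : ℝ) < r := by linarith
  have hre : (t : ℝ) ^ (e / 2) ≤ r := by
    have k1 : (t : ℝ) ^ e = (t : ℝ) ^ (e / 2) * (t : ℝ) ^ (e / 2) := by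
      rw [← Real.rpow_add ht0]
      congr 1
      ring
    have k2 : 32 * (t : ℝ) ^ (e / 2) ≤ (t : ℝ) ^ (e / 2) * (t : ℝ) ^ (e / 2) :=
      mul_le_mul_of_nonneg_right p2 (by positivity)
    linarith
  have hwr : 1 ≤ wd μ r := hw1 r hrn2
  have hwr' : wd' μ r = wd μ r := max_eq_right hwr
  have hwrv : wd μ r ≤ Kv * (r : ℝ) ^ (-av) * r := by
    unfold wd
    exact mul_le_mul_of_nonneg_right (hvA r hr1') hr0.le
  -- the number of the jumps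
  have hm64 : (m : ℝ) ≤ 64 * wd μ r := by
    have k1 := hwl r r' hrn1 (by omega)
    have k2 : (r : ℝ) * wd μ r' ≤ r * (64 * wd μ r) := by
      have : (r' : ℝ) * wd μ r ≤ 32 * r * wd μ r := mul_le_mul_of_nonneg_right hr'1R (by linarith)
      linarith
    exact hm.trans (le_of_mul_le_mul_left k2 hr0)
  have hwt0 : 0 ≤ wd μ t := by linarith [hw1 t (by omega)]
  have hmt : (m : ℝ) ≤ 2 * wd μ t := hm.trans (hwm r' t (by omega) hrt')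
  have htκ : 1 ≤ (t : ℝ) ^ κ := by linarith
  have hR1 : 1 ≤ 2 * (t : ℝ) ^ κ := by linarith
  have habs : |((m : ℤ) : ℝ)| = m := by
    rw [Int.cast_natCast]
    exact abs_of_nonneg (Nat.cast_nonneg m)
  have g1 : (t : ℝ) ^ κ * wd' μ r + |((m : ℤ) : ℝ)| ≤ 2 * (t : ℝ) ^ κ * wd μ r := by
    rw [hwr', habs]
    have : 64 * wd μ r ≤ (t : ℝ) ^ κ * wd μ r := mul_le_mul_of_nonneg_right p9 (by linarith)
    linarith
  have g2' : 2 * (t : ℝ) ^ κ * wd μ r ≤ r / 2 := by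
    have hK2 : 1 ≤ 2 * Kv := by linarith
    have h2w : 0 ≤ 2 * wd μ r := by linarith
    have h2v : 2 * wd μ r ≤ 2 * Kv * (r : ℝ) ^ (-av) * r := by linarith
    have := numW_D (j := 0) hK2 hav ht1 hr0 hre hκ0.le hκ1 p3 h2w h2v h2w
    linarith
  have g2 : (t : ℝ) ^ κ * wd' μ r + |((m : ℤ) : ℝ)| ≤ r / 2 := g1.trans g2'
  have hmr : m ≤ r := by
    have k1 : (m : ℝ) ≤ r := by
      rw [habs] at g2
      have : 0 ≤ (t : ℝ) ^ κ * wd' μ r := by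
        rw [hwr']
        positivity
      linarith
    exact_mod_cast k1
  have hEr : 1 ≤ EE μ r := one_le_EE r
  have hErr : EE μ r ≤ EE μ r' := EE_mono (by omega)
  have g3 : (K₀ * (2 * (t : ℝ) ^ κ) ^ K₀ + 2 * (t : ℝ) ^ κ) * EE μ r + Real.log 2 ≤ (t : ℝ) ^ ε * EE μ r' :=
    (numW_M hK₀ ht1 (by linarith) hκ2' hκ3 hEr).trans
      (mul_le_mul p6 hErr (by linarith) (by positivity))
  -- the cone
  have g4 : ∀ N : ℕ, t ≤ 16 * N → N ≤ t → 2 * ((t : ℝ) ^ δ * wd μ t) + 2 * |((m : ℤ) : ℝ)| ≤ 2 * ((t : ℝ) ^ δ₁ * wd' μ N) := by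
    intro N hN1 hN2
    have hN1' : (t : ℝ) ≤ 16 * N := by exact_mod_cast hN1
    have hwN : 1 ≤ wd μ N := hw1 N (by omega)
    have hwN' : wd' μ N = wd μ N := max_eq_right hwN
    rw [hwN', habs]
    exact numB_cone1 ht1 hδ0 hδ1 p4 (by linarith) hN1' hwN hwt0 (hwl N t (by omega) hN2) hmt
  have g5 : 2 * ((t : ℝ) ^ δ * wd μ t) + 2 * |((m : ℤ) : ℝ)| ≤ (t : ℝ) / 16 := by
    rw [habs]
    refine numW_cone2 ht1 hδ0.le hδ2 p5 hwt0 ?_ hmt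
    unfold wd
    exact mul_le_mul_of_nonneg_right (hvA t (by omega)) ht0.le
  have hmt' : m ≤ t := by omega
  have g6 : (t : ℤ) + |(m : ℤ)| ≤ ((2 * t : ℕ) : ℤ) := by
    rw [abs_of_nonneg (Int.natCast_nonneg m)]
    push_cast
    omega
  refine ⟨fun k hk => ?_, ?_⟩
  · rw [mem_Ico] at hk
    unfold Core
    rw [mem_Ico]
    omega
  -- the events
  unfold Rsp
  refine (measure_mono (rspB_subset (μ := μ) (K := K₀) (R := 2 * (t : ℝ) ^ κ) (H := 2 * t) (r := r)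
    (v := pat t 0 (Ico (t / 2) (t / 2 + m)) fun _ => 1) (D := (t : ℝ) ^ κ * wd' μ r) (s := t / 2) (t := t) (M := m)
    (w := (t : ℝ) ^ δ * wd μ t) (A := (t : ℝ) ^ ε * EE μ r') (fun k hk => ?_) (sv_bunch hmr (by omega)) (fun k hk hk' => ?_)
    (by omega) (by omega) (by omega) g6 g1 g2 g5 g3)).trans ?_
  · rw [pat_bunch (by omega), if_neg (by omega)]
  · rw [pat_bunch hk', if_neg (by omega)]
  have f1 : law μ (BK μ K₀ (2 * (t : ℝ) ^ κ) (2 * t) r)ᶜ ≤ ENNReal.ofReal (1 / 2 * Real.exp (-(t : ℝ) ^ cc)) := by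
    rw [← ENNReal.ofReal_toReal (measure_ne_top (law μ) (BK μ K₀ (2 * (t : ℝ) ^ κ) (2 * t) r)ᶜ)]
    refine ENNReal.ofReal_le_ofReal (numW_BK hA₀ ha₀ hg₀ ht1 rfl hr0 (by linarith) ?_ p7)
    have := hBK r hr1' (2 * t) (2 * (t : ℝ) ^ κ) hR1
    push_cast at this
    exact this
  have f1' : law μ (shr 0 (pat t 0 (Ico (t / 2) (t / 2 + m)) fun _ => 1) ⁻¹' (BK μ K₀ (2 * (t : ℝ) ^ κ) (2 * t) r)ᶜ) ≤
      ENNReal.ofReal (1 / 2 * Real.exp (-(t : ℝ) ^ cc)) := by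
    rw [(shr_mp 0 _).measure_preimage_emb (emb_shr 0 _)]
    exact f1
  have f2 := union_QB (μ := μ) (v := pat t 0 (Ico (t / 2) (t / 2 + m)) fun _ => 1) (M := m) (t := t) (s := t / 2) (r := r)
    (D := (t : ℝ) ^ κ * wd' μ r) (w := (t : ℝ) ^ δ * wd μ t) (p := Real.exp (-(t : ℝ) ^ c₁)) fun u u' y =>
      law_QB hr1' rfl (fun N hN1 hN2 y' hy0 hy1 hy => hns' t s1 N hN1 hN2 y' hy0 hy1 hy) g4 g5 u u' y
  have f3 : ((t : ℝ) + 1) ^ 3 * (4 * Real.exp (-(t : ℝ) ^ c₁)) ≤ 1 / 2 * Real.exp (-(t : ℝ) ^ cc) := by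
    refine le_trans ?_ p8
    have k5 : (t : ℝ) ^ (3 : ℝ) = (t : ℝ) ^ 3 := by
      rw [← Real.rpow_natCast]
      norm_num
    rw [k5]
    have k6 : ((t : ℝ) + 1) ^ 3 ≤ 8 * (t : ℝ) ^ 3 := by
      have : (t : ℝ) + 1 ≤ 2 * t := by linarith
      calc ((t : ℝ) + 1) ^ 3 ≤ (2 * t) ^ 3 := pow_le_pow_left₀ (by positivity) this 3
        _ = 8 * (t : ℝ) ^ 3 := by ring
    calc ((t : ℝ) + 1) ^ 3 * (4 * Real.exp (-(t : ℝ) ^ c₁)) ≤ 8 * (t : ℝ) ^ 3 * (4 * Real.exp (-(t : ℝ) ^ c₁)) :=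
          mul_le_mul_of_nonneg_right k6 (by positivity)
      _ = 32 * (t : ℝ) ^ 3 * Real.exp (-(t : ℝ) ^ c₁) := by ring
  refine (measure_union_le _ _).trans ((add_le_add ((measure_union_le _ _).trans (add_le_add f1 f1'))
    (f2.trans (ENNReal.ofReal_le_ofReal f3))).trans ?_)
  rw [← ENNReal.ofReal_add (by positivity) (by positivity), ← ENNReal.ofReal_add (by positivity) (by positivity)]
  refine ENNReal.ofReal_le_ofReal ?_
  have := Real.exp_pos (-(t : ℝ) ^ (cc / 2))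
  linarith

/-- **BASE of the window form**: windows `[2 ^ a, 2 ^ (a + Λ)]`, `κ a ≤ Λ ≤ a`; a bunch of `⌊wd' (2 ^ a)⌋` unit jumps. -/
theorem base_bunch (h : In μ c C n₀) (hF : HF2 μ) (hns : NSs μ) : ∀ κ e : ℝ, 0 < κ → 0 < e → ∃ c' : ℝ, 0 < c' ∧ ∃ a₀ : ℕ,
    ∀ a Λ x : ℕ, a₀ ≤ a → κ * (a : ℝ) ≤ Λ → Λ ≤ a → x ≤ Λ → ∃ I : Finset ℕ, I ⊆ Core (2 ^ (a + x)) ∧
      I.card = 1 * Nat.floor (wd' μ (2 ^ a)) ∧
      Rsp μ (2 ^ (a + x)) I 1 ((2 : ℝ) ^ (c' * (Λ : ℝ)) * wd' μ (2 ^ (a + x))) ((2 : ℝ) ^ (e * (Λ : ℝ)) * EE' μ (2 ^ a))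
        (Real.exp (-(2 : ℝ) ^ (c' * (Λ : ℝ)))) := by
  intro κ e hκ he
  obtain ⟨δ, c₁, hδ, hc₁, t₀, hb⟩ := rsp_bunch h hF hns (e := 1 / 2) (ε := e * κ / 2) (by norm_num) (by positivity)
  obtain ⟨n₂, hw1⟩ := (tendsto_atTop.1 (wd_tendsto h) 1).exists_forall_of_atTop
  refine ⟨min δ c₁, lt_min hδ hc₁, t₀ + n₂, fun a Λ x ha hκΛ hΛa hx => ?_⟩
  have h2a : a < 2 ^ a := Nat.lt_two_pow_self
  have hmono : 2 ^ a ≤ 2 ^ (a + x) := Nat.pow_le_pow_right (by norm_num) (by omega)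
  have hwa : wd' μ (2 ^ a) = wd μ (2 ^ a) := max_eq_right (hw1 _ (by omega))
  have hwt : wd' μ (2 ^ (a + x)) = wd μ (2 ^ (a + x)) := max_eq_right (hw1 _ (by omega))
  have haR : (0 : ℝ) ≤ a := Nat.cast_nonneg a
  have hxR : (x : ℝ) ≤ Λ := by exact_mod_cast hx
  have hΛR : (Λ : ℝ) ≤ a := by exact_mod_cast hΛa
  have hx0 : (0 : ℝ) ≤ x := Nat.cast_nonneg x
  have hΛ0 : (0 : ℝ) ≤ Λ := Nat.cast_nonneg Λ
  have cast2 : ∀ n : ℕ, (((2 ^ n : ℕ) : ℕ) : ℝ) = (2 : ℝ) ^ (n : ℝ) := by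
    intro n
    rw [Real.rpow_natCast]
    push_cast
    rfl
  have tp : ∀ p : ℝ, (((2 ^ (a + x) : ℕ) : ℕ) : ℝ) ^ p = (2 : ℝ) ^ (((a : ℝ) + x) * p) := by
    intro p
    rw [cast2, ← Real.rpow_mul (by norm_num)]
    push_cast
    rfl
  have hm0 : Nat.floor (wd' μ (2 ^ a)) ≤ wd μ (2 ^ a) := by
    rw [hwa]
    exact Nat.floor_le (by linarith [hw1 (2 ^ a) (by omega)])
  have hre : (((2 ^ (a + x) : ℕ) : ℕ) : ℝ) ^ (1 / 2 : ℝ) ≤ ((2 ^ a : ℕ) : ℝ) := by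
    rw [tp, cast2]
    exact Real.rpow_le_rpow_of_exponent_le (by norm_num) (by linarith)
  obtain ⟨g1, g2⟩ := hb (2 ^ (a + x)) (by omega) (2 ^ a) hre hmono (Nat.floor (wd' μ (2 ^ a))) hm0
  refine ⟨_, g1, ?_, ?_⟩
  · rw [Nat.card_Ico]
    omega
  · have d1 : min δ c₁ * (Λ : ℝ) ≤ ((a : ℝ) + x) * δ := by
      have e1 : min δ c₁ * (Λ : ℝ) ≤ δ * Λ := mul_le_mul_of_nonneg_right (min_le_left _ _) hΛ0
      have e2 : δ * (Λ : ℝ) ≤ δ * (a + x) := mul_le_mul_of_nonneg_left (by linarith) hδ.le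
      linarith
    have d2 : min δ c₁ * (Λ : ℝ) ≤ ((a : ℝ) + x) * c₁ := by
      have e1 : min δ c₁ * (Λ : ℝ) ≤ c₁ * Λ := mul_le_mul_of_nonneg_right (min_le_right _ _) hΛ0
      have e2 : c₁ * (Λ : ℝ) ≤ c₁ * (a + x) := mul_le_mul_of_nonneg_left (by linarith) hc₁.le
      linarith
    have d3 : ((a : ℝ) + x) * (e * κ / 2) ≤ e * Λ := by
      have e1 : ((a : ℝ) + x) * (e * κ / 2) ≤ (2 * a) * (e * κ / 2) := mul_le_mul_of_nonneg_right (by linarith) (by positivity)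
      have e2 : e * (κ * a) ≤ e * Λ := mul_le_mul_of_nonneg_left hκΛ he.le
      linarith
    refine rsp_mono ?_ ?_ ?_ g2
    · rw [hwt, tp]
      refine mul_le_mul_of_nonneg_right (Real.rpow_le_rpow_of_exponent_le (by norm_num) d1) ?_
      linarith [hw1 (2 ^ (a + x)) (by omega)]
    · rw [tp]
      exact mul_le_mul (Real.rpow_le_rpow_of_exponent_le (by norm_num) d3) (le_max_right _ _)
        (le_trans zero_le_one (one_le_EE _)) (by positivity)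
    · rw [tp]
      exact Real.exp_le_exp.2 (neg_le_neg (Real.rpow_le_rpow_of_exponent_le (by norm_num) d2))

end

end Pool.Agent.W_7d29a1_Z95
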