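import Pool.Agent.W_7d29a1_21z.WindowsPoly

/-!
# The dislocation recursion in one almost linear window

`w`, `E` widths and energies.  A window is given by `a Λ : ℕ`: `r = 2^a`, `L = 2^(a+Λ)`, scales
`t = 2^k`, `a ≤ k ≤ a + Λ`.  `Adm c a Λ k z A`: at the scale `2^k` there is a deterministic pattern
of `z` unit dislocations (jump of size `w r`) whose response is at most `A` (up to probability
`exp (-L^c)`).  `Iface` = what the analysis has to deliver (base, step, top).  The theorem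
`window_alg` : on an `ε`-linear window `w` grows at least with the exponent `1/2 + c₁²/32`.
-/

namespace Pool.Agent.W_7d29a1_Z95

open Finset Pool.Agent.W_7d29a1_21z

/-- relative tie probability of the scale `2^k` in a window which starts at `2^a` -/
noncomputable def qq (w : ℕ → ℝ) (a k : ℕ) : ℝ :=
  Real.sqrt ((w (2 ^ k) / w (2 ^ a)) * ((2 : ℝ) ^ a / (2 : ℝ) ^ k))

/-- the interface between the analysis and the algebra -/
structure Iface (w E : ℕ → ℝ) (Adm : ℝ → ℕ → ℕ → ℕ → ℕ → ℝ → Prop) : Prop where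
  mono : ∀ {c c' : ℝ} {a Λ k z : ℕ} {A A' : ℝ}, Adm c a Λ k z A → 0 < c' → c' ≤ c → A ≤ A' →
    Adm c' a Λ k z A'
  base : ∀ κ ε : ℝ, 0 < κ → 0 < ε → ∃ c : ℝ, 0 < c ∧ ∃ a₀ : ℕ, ∀ a Λ k : ℕ, a₀ ≤ a →
    κ * (a : ℝ) ≤ Λ → Λ ≤ a → a ≤ k → k ≤ a + Λ →
    Adm c a Λ k 1 ((2 : ℝ) ^ (ε * (Λ : ℝ)) * E (2 ^ a))
  step : ∀ κ c ε : ℝ, 0 < κ → 0 < c → 0 < ε → ∃ c' : ℝ, 0 < c' ∧ ∃ a₀ : ℕ,
    ∀ a Λ k l z n : ℕ, ∀ A : ℝ, a₀ ≤ a → κ * (a : ℝ) ≤ Λ → Λ ≤ a → a ≤ k → k ≤ l → l ≤ a + Λ →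
    Adm c a Λ k z A → 1 ≤ z → E (2 ^ a) ≤ A → 1 ≤ n → n ≤ 2 ^ (l - k) →
    (2 : ℝ) ^ (ε * (Λ : ℝ)) * (z * w (2 ^ a) * E (2 ^ a)) ≤ A * qq w a k * w (2 ^ k) →
    (2 : ℝ) ^ (ε * (Λ : ℝ)) * (n * z * w (2 ^ a)) ≤ w (2 ^ l) →
    Adm c' a Λ l (n * z) ((2 : ℝ) ^ (ε * (Λ : ℝ)) *
      ((n / (2 : ℝ) ^ (l - k)) * (E (2 ^ l) + Real.sqrt ((2 : ℝ) ^ (l - k)) * A
        + (2 : ℝ) ^ (l - k) * qq w a k * A ^ 2 / E (2 ^ a)) + Real.sqrt n * A))
  top : ∀ κ c ε : ℝ, 0 < κ → 0 < c → 0 < ε → ∃ a₀ : ℕ, ∀ a Λ z : ℕ, ∀ A : ℝ, a₀ ≤ a →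
    κ * (a : ℝ) ≤ Λ → Λ ≤ a → Adm c a Λ (a + Λ) z A → 1 ≤ z →
    (2 : ℝ) ^ (ε * (Λ : ℝ)) * (z * w (2 ^ a)) ≤ w (2 ^ (a + Λ)) →
    E (2 ^ (a + Λ)) ≤ (2 : ℝ) ^ (ε * (Λ : ℝ)) * (w (2 ^ (a + Λ)) / (z * w (2 ^ a))) * A

/-- `f` is `δ`-linear with slope `ν` on the window -/
def Lin (f : ℕ → ℝ) (a Λ : ℕ) (ν δ : ℝ) : Prop :=
  ∀ t : ℕ, t ≤ Λ → |f (a + t) - f a - ν * t| ≤ δ * Λ

/-- the invariant of the iteration -/
def Inv (E : ℕ → ℝ) (Adm : ℝ → ℕ → ℕ → ℕ → ℕ → ℝ → Prop) (a Λ : ℕ) (c σ e : ℝ) : Prop :=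
  ∀ k : ℕ, a ≤ k → k ≤ a + Λ → ∃ z : ℕ, 1 ≤ z ∧
    (2 : ℝ) ^ (2 * σ * ((k : ℝ) - a) - e * Λ) ≤ z ∧ (z : ℝ) ≤ (2 : ℝ) ^ (2 * σ * ((k : ℝ) - a)) ∧
    Adm c a Λ k z ((2 : ℝ) ^ (σ * ((k : ℝ) - a) + e * Λ) * E (2 ^ a))

lemma P_pos (x : ℝ) : (0 : ℝ) < (2 : ℝ) ^ x := Real.rpow_pos_of_pos two_pos x

lemma P_mono {x y : ℝ} (h : x ≤ y) : (2 : ℝ) ^ x ≤ (2 : ℝ) ^ y :=
  Real.rpow_le_rpow_of_exponent_le one_le_two h

lemma P_add (x y : ℝ) : (2 : ℝ) ^ x * (2 : ℝ) ^ y = (2 : ℝ) ^ (x + y) :=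
  (Real.rpow_add two_pos x y).symm

lemma P_four (x y E : ℝ) :
    (2 : ℝ) ^ x * (4 * ((2 : ℝ) ^ y * E)) = (2 : ℝ) ^ (x + 2 + y) * E := by
  have h : (2 : ℝ) ^ (2 : ℝ) = 4 := by norm_num
  rw [Real.rpow_add two_pos, Real.rpow_add two_pos, h]
  ring

lemma P_le {x y : ℝ} (h : (2 : ℝ) ^ x ≤ (2 : ℝ) ^ y) : x ≤ y :=
  (Real.rpow_le_rpow_left_iff one_lt_two).1 h

lemma P_logb {x : ℝ} (hx : 0 < x) : x = (2 : ℝ) ^ (Real.logb 2 x) :=
  (Real.rpow_logb two_pos (by norm_num) hx).symm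

lemma P_sqrt (x : ℝ) : Real.sqrt ((2 : ℝ) ^ x) = (2 : ℝ) ^ (x / 2) := by
  rw [Real.sqrt_eq_rpow, ← Real.rpow_mul two_pos.le]
  congr 1; ring

lemma qq_eq (w : ℕ → ℝ) (a k : ℕ) (ha : 0 < w (2 ^ a)) (hk : 0 < w (2 ^ k)) :
    qq w a k = (2 : ℝ) ^ (((Real.logb 2 (w (2 ^ k)) - Real.logb 2 (w (2 ^ a)))
      - ((k : ℝ) - a)) / 2) := by
  have e1 : (w (2 ^ k) / w (2 ^ a)) * ((2 : ℝ) ^ a / (2 : ℝ) ^ k)
      = (2 : ℝ) ^ ((Real.logb 2 (w (2 ^ k)) - Real.logb 2 (w (2 ^ a))) - ((k : ℝ) - a)) := by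
    rw [Real.rpow_sub two_pos, Real.rpow_sub two_pos, Real.rpow_sub two_pos,
      Real.rpow_logb two_pos (by norm_num) hk, Real.rpow_logb two_pos (by norm_num) ha,
      Real.rpow_natCast, Real.rpow_natCast]
    field_simp
  rw [qq, e1, P_sqrt]

/-- numerical facts about the exponents -/
lemma expo (c₁ ν χ σ : ℝ) (hc : 0 < c₁) (hc1 : c₁ ≤ 1) (hν : ν < 1 / 2 + c₁ ^ 2 / 32)
    (hNP : 1 + c₁ ≤ ν + 2 * χ) (hσ0 : 0 ≤ σ) (hσ : σ ≤ ν - χ + c₁ ^ 2 / 64) :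
    c₁ / 2 ≤ ν - 2 * (σ + c₁ ^ 2 / 64) ∧ σ + c₁ ^ 2 / 64 ≤ 1 / 4 ∧
      2 * (σ + c₁ ^ 2 / 64) * (1 - 2 * σ) ≤ (1 - ν) * (1 - ν - c₁ ^ 2 / 32) ∧
      σ ≤ (3 * ν - 1) / 2 ∧ 0 ≤ 1 - ν - c₁ ^ 2 / 32 := by
  have hc2 : c₁ ^ 2 ≤ c₁ := by nlinarith
  have hc2' : 0 < c₁ ^ 2 := by positivity
  have h1 : σ ≤ 1 / 4 - 7 * c₁ / 16 := by nlinarith
  refine ⟨by nlinarith, by nlinarith, ?_, by nlinarith, by nlinarith⟩
  have h2 : 2 * σ * (1 - 2 * σ) ≤ 1 / 4 - 49 / 64 * c₁ ^ 2 := by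
    have h3 : 7 * c₁ / 16 ≤ 1 / 4 - σ := by linarith
    have h4 : (7 * c₁ / 16) ^ 2 ≤ (1 / 4 - σ) ^ 2 := pow_le_pow_left₀ (by positivity) h3 2
    nlinarith
  have h5 : 1 / 4 - 3 / 64 * c₁ ^ 2 ≤ (1 - ν) * (1 - ν - c₁ ^ 2 / 32) := by
    have h6 : 1 / 2 - c₁ ^ 2 / 32 ≤ 1 - ν := by linarith
    have h7 : 1 / 2 - c₁ ^ 2 / 16 ≤ 1 - ν - c₁ ^ 2 / 32 := by linarith
    have h8 : (1 / 2 - c₁ ^ 2 / 32) * (1 / 2 - c₁ ^ 2 / 16) ≤ (1 - ν) * (1 - ν - c₁ ^ 2 / 32) :=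
      mul_le_mul h6 h7 (by nlinarith) (by nlinarith)
    nlinarith
  nlinarith

/-- **one step of the iteration** -/
lemma inv_step (w E : ℕ → ℝ) (Adm : ℝ → ℕ → ℕ → ℕ → ℕ → ℝ → Prop) (hI : Iface w E Adm)
    (hw : ∀ k : ℕ, 0 < w (2 ^ k)) (hE : ∀ k : ℕ, 0 < E (2 ^ k))
    (c₁ : ℝ) (hc₁ : 0 < c₁) (hc₁1 : c₁ ≤ 1) (κ : ℝ) (hκ : 0 < κ) (δ e c σ : ℝ) (hδ : 0 < δ)
    (he : 4 * δ ≤ e) (hc : 0 < c) (hσ0 : 0 ≤ σ) :
    ∃ c' : ℝ, 0 < c' ∧ ∃ a₀ : ℕ, ∀ a Λ : ℕ, ∀ ν χ : ℝ, a₀ ≤ a → κ * (a : ℝ) ≤ Λ → Λ ≤ a →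
      Lin (fun k => Real.logb 2 (w (2 ^ k))) a Λ ν δ →
      Lin (fun k => Real.logb 2 (E (2 ^ k))) a Λ χ δ →
      ν < 1 / 2 + c₁ ^ 2 / 32 → 1 + c₁ ≤ ν + 2 * χ → σ ≤ ν - χ + c₁ ^ 2 / 64 →
      Inv E Adm a Λ c σ e → Inv E Adm a Λ c' (σ + c₁ ^ 2 / 64) (16 / c₁ * e) := by
  have he0 : 0 < e := by linarith
  obtain ⟨cb, hcb, ab, hbase⟩ := hI.base κ e hκ he0
  obtain ⟨cs, hcs, as, hstep⟩ := hI.step κ c (e / 4) hκ hc (by positivity)
  obtain ⟨a1, ha1⟩ : ∃ a1 : ℕ, 16 / (κ * e) < a1 := exists_nat_gt _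
  refine ⟨min cb cs, lt_min hcb hcs, ab + as + a1, ?_⟩
  intro a Λ ν χ ha hκΛ hΛa hf hg hν hNP hσ hInv
  obtain ⟨x1, x2, x3, x4, x5⟩ := expo c₁ ν χ σ hc₁ hc₁1 hν hNP hσ0 hσ
  set γ : ℝ := c₁ ^ 2 / 64 with hγ
  have hγ0 : 0 < γ := by positivity
  have hτ : c₁ ^ 2 / 32 = 2 * γ := by rw [hγ]; ring
  rw [hτ] at x3 x5
  -- `Λ` is large
  have hΛe : 16 ≤ e * Λ := by
    have h1 : (a1 : ℝ) ≤ a := by
      have : a1 ≤ a := by omega
      exact_mod_cast this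
    rw [div_lt_iff₀ (by positivity)] at ha1
    have h2 : e * (κ * a) ≤ e * Λ := mul_le_mul_of_nonneg_left hκΛ he0.le
    have h3 : κ * e * a1 ≤ κ * e * a := mul_le_mul_of_nonneg_left h1 (by positivity)
    nlinarith
  have hΛ0 : (0 : ℝ) ≤ Λ := Nat.cast_nonneg _
  have hR1 : 16 * e ≤ 16 / c₁ * e := by
    have : (16 : ℝ) ≤ 16 / c₁ := by
      rw [le_div_iff₀ hc₁]; nlinarith
    exact mul_le_mul_of_nonneg_right this he0.le
  intro l hal hlΛ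
  set u : ℝ := (l : ℝ) - a with hu
  have hal' : (a : ℝ) ≤ l := by exact_mod_cast hal
  have hu0 : 0 ≤ u := by rw [hu]; linarith
  set σ' : ℝ := σ + γ with hσ'
  have hσ'0 : 0 < σ' := by rw [hσ']; linarith
  by_cases hcase : u ≤ 8 * e / c₁ * Λ
  · -- near the bottom of the window: the base pattern
    refine ⟨1, le_rfl, ?_, ?_, ?_⟩
    · rw [Nat.cast_one]
      have h1 : 2 * σ' * u - 16 / c₁ * e * Λ ≤ 0 := by
        have h2 : 2 * σ' * u ≤ 1 * (8 * e / c₁ * Λ) :=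
          mul_le_mul (by linarith) hcase hu0 (by norm_num)
        have h3 : 8 * e / c₁ * Λ ≤ 16 / c₁ * e * Λ := by
          have : (0 : ℝ) ≤ e / c₁ * Λ := by positivity
          have e1 : 8 * e / c₁ * Λ = 8 * (e / c₁ * Λ) := by ring
          have e2 : 16 / c₁ * e * Λ = 16 * (e / c₁ * Λ) := by ring
          rw [e1, e2]; linarith
        linarith
      calc (2 : ℝ) ^ (2 * σ' * u - 16 / c₁ * e * Λ) ≤ (2 : ℝ) ^ (0 : ℝ) := P_mono h1
        _ = 1 := Real.rpow_zero 2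
    · rw [Nat.cast_one]
      calc (1 : ℝ) = (2 : ℝ) ^ (0 : ℝ) := (Real.rpow_zero 2).symm
        _ ≤ _ := P_mono (by positivity)
    · refine hI.mono (hbase a Λ l (by omega) hκΛ hΛa hal hlΛ) (lt_min hcb hcs)
        (min_le_left _ _) ?_
      refine mul_le_mul_of_nonneg_right (P_mono ?_) (hE a).le
      have h1 : e * Λ ≤ 16 / c₁ * e * Λ :=
        mul_le_mul_of_nonneg_right (by linarith) hΛ0
      have h2 : 0 ≤ σ' * u := by positivity
      linarith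
  · push Not at hcase
    have huΛ : (8 : ℝ) * (e * Λ) < c₁ * u := by
      have e1 : 8 * e / c₁ * Λ = (8 * (e * Λ)) / c₁ := by ring
      rw [e1, div_lt_iff₀ hc₁] at hcase
      linarith
    -- the lower scale
    have h12 : 0 < 1 - 2 * σ := by linarith
    set b : ℝ := (1 - ν - 2 * γ) / (1 - 2 * σ) with hb
    have hb0 : 0 ≤ b := div_nonneg x5 h12.le
    have hbm : b * (1 - 2 * σ) = 1 - ν - 2 * γ := by rw [hb]; field_simp
    have hb1 : b ≤ 1 := by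
      rw [hb, div_le_one h12]; linarith
    set m : ℕ := ⌊b * u⌋₊ with hm
    have hbu0 : 0 ≤ b * u := mul_nonneg hb0 hu0
    have hm1 : (m : ℝ) ≤ b * u := Nat.floor_le hbu0
    have hm2 : b * u - 1 < m := by
      have := Nat.lt_floor_add_one (b * u)
      linarith
    have hmu : (m : ℝ) ≤ u := le_trans hm1 (by nlinarith)
    set k : ℕ := a + m with hk
    have hkl : k ≤ l := by
      have : ((a + m : ℕ) : ℝ) ≤ l := by push_cast; rw [hu] at hmu; linarith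
      exact_mod_cast this
    have hka : (k : ℝ) - a = m := by rw [hk]; push_cast; ring
    have hlk : ((l - k : ℕ) : ℝ) = u - m := by
      rw [Nat.cast_sub hkl, hk, hu]; push_cast; ring
    obtain ⟨z, hz1, hzlow, hzup, hzA⟩ := hInv k (by omega) (by omega)
    rw [hka] at hzlow hzup hzA
    have hzpos : (0 : ℝ) < z := by exact_mod_cast hz1
    -- linear bounds
    have fk := hf m (by omega)
    have gl := hg (l - a) (by omega)
    have fl := hf (l - a) (by omega)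
    have hla : ((l - a : ℕ) : ℝ) = u := by rw [Nat.cast_sub hal, hu]
    have hala : a + (l - a) = l := by omega
    rw [hla, hala] at gl fl
    simp only at fk gl fl
    rw [← hk] at fk
    rw [abs_le] at fk gl fl
    set fa := Real.logb 2 (w (2 ^ a)) with hfa
    set fkk := Real.logb 2 (w (2 ^ k)) with hfkk
    set fll := Real.logb 2 (w (2 ^ l)) with hfll
    set ga := Real.logb 2 (E (2 ^ a)) with hga
    set gll := Real.logb 2 (E (2 ^ l)) with hgll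
    have hδΛ : 4 * (δ * Λ) ≤ e * Λ := by
      have := mul_le_mul_of_nonneg_right he hΛ0
      linarith
    have hδΛ0 : 0 ≤ δ * Λ := by positivity
    have ewa : w (2 ^ a) = (2 : ℝ) ^ fa := P_logb (hw a)
    have ewk : w (2 ^ k) = (2 : ℝ) ^ fkk := P_logb (hw k)
    have ewl : w (2 ^ l) = (2 : ℝ) ^ fll := P_logb (hw l)
    have eEa : E (2 ^ a) = (2 : ℝ) ^ ga := P_logb (hE a)
    have eEl : E (2 ^ l) = (2 : ℝ) ^ gll := P_logb (hE l)
    -- the number of blocks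
    set Y : ℝ := (2 : ℝ) ^ (2 * σ' * u) / z with hY
    have hmσ : 2 * σ * (m : ℝ) ≤ 2 * σ' * u := by
      have h1 : 2 * σ * (m : ℝ) ≤ 2 * σ * u := mul_le_mul_of_nonneg_left hmu (by linarith)
      have h2 : 2 * σ * u ≤ 2 * σ' * u := mul_le_mul_of_nonneg_right (by linarith) hu0
      linarith
    have hY1 : 1 ≤ Y := by
      rw [hY, le_div_iff₀ hzpos, one_mul]
      exact le_trans hzup (P_mono hmσ)
    have hY0 : 0 ≤ Y := le_trans zero_le_one hY1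
    set n : ℕ := ⌊Y⌋₊ with hn
    have hn1 : 1 ≤ n := Nat.one_le_floor_iff _ |>.2 hY1
    have hnY : (n : ℝ) ≤ Y := Nat.floor_le hY0
    have hnY2 : Y / 2 ≤ n := by
      have h1 := Nat.lt_floor_add_one Y
      have h2 : (1 : ℝ) ≤ n := by exact_mod_cast hn1
      rw [← hn] at h1
      linarith
    have hnP : (n : ℝ) ≤ (2 : ℝ) ^ (2 * σ' * u - 2 * σ * m + e * Λ) := by
      refine le_trans hnY ?_
      rw [hY, div_le_iff₀ hzpos]
      calc (2 : ℝ) ^ (2 * σ' * u)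
          = (2 : ℝ) ^ (2 * σ' * u - 2 * σ * m + e * Λ) * (2 : ℝ) ^ (2 * σ * m - e * Λ) := by
            rw [P_add]; congr 1; ring
        _ ≤ _ := mul_le_mul_of_nonneg_left hzlow (P_pos _).le
    have hnz : (n : ℝ) * z ≤ (2 : ℝ) ^ (2 * σ' * u) := by
      calc (n : ℝ) * z ≤ Y * z := mul_le_mul_of_nonneg_right hnY hzpos.le
        _ = _ := by rw [hY]; field_simp
    have hnz2 : (2 : ℝ) ^ (2 * σ' * u) / 2 ≤ (n : ℝ) * z := by
      calc (2 : ℝ) ^ (2 * σ' * u) / 2 = Y / 2 * z := by rw [hY]; field_simp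
        _ ≤ _ := mul_le_mul_of_nonneg_right hnY2 hzpos.le
    have e2lk : (2 : ℝ) ^ (l - k) = (2 : ℝ) ^ (u - m) := by
      rw [← hlk, Real.rpow_natCast]
    -- `n ≤ 2^(l-k)`
    have key1 : (1 - 2 * σ) * m ≤ (1 - ν - 2 * γ) * u := by
      have h1 : (1 - 2 * σ) * m ≤ (1 - 2 * σ) * (b * u) := mul_le_mul_of_nonneg_left hm1 h12.le
      have h2 : (1 - 2 * σ) * (b * u) = (1 - ν - 2 * γ) * u := by rw [← hbm]; ring
      linarith
    have hgap : c₁ / 2 * u ≤ (ν - 2 * σ') * u := mul_le_mul_of_nonneg_right x1 hu0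
    have hγu : 0 ≤ 2 * γ * u := by positivity
    have hnB : n ≤ 2 ^ (l - k) := by
      have h1 : (n : ℝ) ≤ (2 : ℝ) ^ (u - m) := by
        refine le_trans hnP (P_mono ?_)
        linarith only [key1, hgap, huΛ, hγu, mul_nonneg hc₁.le hu0]
      rw [← e2lk] at h1
      exact_mod_cast h1
    -- conditions
    set A : ℝ := (2 : ℝ) ^ (σ * m + e * Λ) * E (2 ^ a) with hA
    have hA0 : 0 < A := mul_pos (P_pos _) (hE a)
    have hEA : E (2 ^ a) ≤ A := by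
      rw [hA]
      refine le_mul_of_one_le_left (hE a).le ?_
      calc (1 : ℝ) = (2 : ℝ) ^ (0 : ℝ) := (Real.rpow_zero 2).symm
        _ ≤ _ := P_mono (by positivity)
    have hq := qq_eq w a k (hw a) (hw k)
    rw [← hfa, ← hfkk, hka] at hq
    have hcond1 : (2 : ℝ) ^ (e / 4 * (Λ : ℝ)) * (z * w (2 ^ a) * E (2 ^ a))
        ≤ A * qq w a k * w (2 ^ k) := by
      have h1 : (2 : ℝ) ^ (e / 4 * (Λ : ℝ)) * (z * w (2 ^ a) * E (2 ^ a))
          ≤ (2 : ℝ) ^ (e / 4 * (Λ : ℝ)) * ((2 : ℝ) ^ (2 * σ * m) * w (2 ^ a) * E (2 ^ a)) := by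
        have := (hw a).le
        have := (hE a).le
        gcongr
      refine le_trans h1 ?_
      rw [hA, hq, ewa, ewk, eEa]
      simp only [P_add]
      refine P_mono ?_
      have h2 : σ * m ≤ (3 * ν - 1) / 2 * m := mul_le_mul_of_nonneg_right x4 (Nat.cast_nonneg _)
      linarith only [fk.1, h2, hδΛ, hδΛ0]
    have hcond2 : (2 : ℝ) ^ (e / 4 * (Λ : ℝ)) * (n * z * w (2 ^ a)) ≤ w (2 ^ l) := by
      have h1 : (2 : ℝ) ^ (e / 4 * (Λ : ℝ)) * (n * z * w (2 ^ a))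
          ≤ (2 : ℝ) ^ (e / 4 * (Λ : ℝ)) * ((2 : ℝ) ^ (2 * σ' * u) * w (2 ^ a)) := by
        have := (hw a).le
        gcongr
      refine le_trans h1 ?_
      rw [ewa, ewl]
      simp only [P_add]
      refine P_mono ?_
      linarith only [fl.1, hgap, huΛ, hδΛ, mul_nonneg hc₁.le hu0]
    have hfin := hstep a Λ k l z n A (by omega) hκΛ hΛa (by omega) hkl hlΛ hzA hz1 hEA hn1 hnB
      hcond1 hcond2
    refine ⟨n * z, Nat.mul_pos hn1 hz1, ?_, ?_, ?_⟩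
    · push_cast
      refine le_trans ?_ hnz2
      have h1 : (2 : ℝ) ^ (2 * σ' * u) / 2 = (2 : ℝ) ^ (2 * σ' * u - 1) := by
        rw [Real.rpow_sub two_pos, Real.rpow_one]
      rw [h1]
      refine P_mono ?_
      have h2 : 16 * (e * Λ) ≤ 16 / c₁ * e * Λ := by
        have := mul_le_mul_of_nonneg_right hR1 hΛ0
        linarith
      linarith
    · push_cast
      exact hnz
    · refine hI.mono hfin (lt_min hcb hcs) (min_le_right _ _) ?_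
      -- the response
      set X : ℝ := σ' * u + (3 * e + δ) * Λ + 1 with hX
      have hEapos := hE a
      have hBpos : (0 : ℝ) < (2 : ℝ) ^ (l - k) := by positivity
      have t1 : (n / (2 : ℝ) ^ (l - k)) * E (2 ^ l) ≤ (2 : ℝ) ^ X * E (2 ^ a) := by
        rw [e2lk, eEl, eEa]
        calc (n : ℝ) / (2 : ℝ) ^ (u - m) * (2 : ℝ) ^ gll
            ≤ (2 : ℝ) ^ (2 * σ' * u - 2 * σ * m + e * Λ) / (2 : ℝ) ^ (u - m) * (2 : ℝ) ^ gll := by
              have := (P_pos gll).le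
              have := (P_pos (u - m)).le
              gcongr
          _ = (2 : ℝ) ^ (2 * σ' * u - 2 * σ * m + e * Λ - (u - m) + gll) := by
              rw [← Real.rpow_sub two_pos, P_add]
          _ ≤ (2 : ℝ) ^ (X + ga) := by
              refine P_mono ?_
              have h3 : (σ' - (ν - χ) - 2 * γ) * u ≤ 0 := by
                apply mul_nonpos_of_nonpos_of_nonneg _ hu0
                rw [hσ']; linarith only [hσ, hγ]
              have h4 : 0 ≤ e * Λ := by positivity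
              rw [hX]
              linarith only [gl.2, h3, h4, key1]
          _ = _ := (P_add _ _).symm
      have t4 : Real.sqrt n * A ≤ (2 : ℝ) ^ X * E (2 ^ a) := by
        have h1 : Real.sqrt n ≤ (2 : ℝ) ^ ((2 * σ' * u - 2 * σ * m + e * Λ) / 2) := by
          rw [← P_sqrt]
          exact Real.sqrt_le_sqrt hnP
        calc Real.sqrt n * A ≤ (2 : ℝ) ^ ((2 * σ' * u - 2 * σ * m + e * Λ) / 2) * A :=
              mul_le_mul_of_nonneg_right h1 hA0.le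
          _ = (2 : ℝ) ^ ((2 * σ' * u - 2 * σ * m + e * Λ) / 2 + (σ * m + e * Λ)) * E (2 ^ a) := by
              rw [hA, ← mul_assoc, P_add]
          _ ≤ _ := by
              refine mul_le_mul_of_nonneg_right (P_mono ?_) hEapos.le
              have h4 : 0 ≤ e * Λ := by positivity
              rw [hX]; linarith only [h4, hδΛ0]
      have t2 : (n / (2 : ℝ) ^ (l - k)) * (Real.sqrt ((2 : ℝ) ^ (l - k)) * A)
          ≤ Real.sqrt n * A := by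
        rw [← mul_assoc]
        refine mul_le_mul_of_nonneg_right ?_ hA0.le
        have hnB' : (n : ℝ) ≤ (2 : ℝ) ^ (l - k) := by exact_mod_cast hnB
        have hs : Real.sqrt n ≤ Real.sqrt ((2 : ℝ) ^ (l - k)) := Real.sqrt_le_sqrt hnB'
        have hs1 : Real.sqrt ((2 : ℝ) ^ (l - k)) * Real.sqrt ((2 : ℝ) ^ (l - k))
            = (2 : ℝ) ^ (l - k) := Real.mul_self_sqrt hBpos.le
        have hs2 : Real.sqrt n * Real.sqrt n = n := Real.mul_self_sqrt (Nat.cast_nonneg _)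
        have hs3 : 0 ≤ Real.sqrt n := Real.sqrt_nonneg _
        have hs4 : 0 ≤ Real.sqrt ((2 : ℝ) ^ (l - k)) := Real.sqrt_nonneg _
        rw [div_mul_eq_mul_div, div_le_iff₀ hBpos]
        calc (n : ℝ) * Real.sqrt ((2 : ℝ) ^ (l - k))
            = Real.sqrt n * Real.sqrt n * Real.sqrt ((2 : ℝ) ^ (l - k)) := by rw [hs2]
          _ ≤ Real.sqrt n * Real.sqrt ((2 : ℝ) ^ (l - k)) * Real.sqrt ((2 : ℝ) ^ (l - k)) := by
              gcongr
          _ = Real.sqrt n * (2 : ℝ) ^ (l - k) := by rw [mul_assoc, hs1]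
      have t3 : (n / (2 : ℝ) ^ (l - k)) * ((2 : ℝ) ^ (l - k) * qq w a k * A ^ 2 / E (2 ^ a))
          ≤ (2 : ℝ) ^ X * E (2 ^ a) := by
        have h1 : (n / (2 : ℝ) ^ (l - k)) * ((2 : ℝ) ^ (l - k) * qq w a k * A ^ 2 / E (2 ^ a))
            = n * qq w a k * A ^ 2 / E (2 ^ a) := by
          field_simp
        have h2 : A ^ 2 / E (2 ^ a) = (2 : ℝ) ^ (2 * (σ * m + e * Λ)) * E (2 ^ a) := by
          rw [hA, mul_pow, ← Real.rpow_natCast ((2 : ℝ) ^ (σ * m + e * Λ)) 2,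
            ← Real.rpow_mul two_pos.le]
          push_cast
          rw [mul_comm (σ * m + e * Λ) 2]
          field_simp
        have h3 : 0 < qq w a k := by rw [hq]; exact P_pos _
        rw [h1, mul_div_assoc, h2]
        calc (n : ℝ) * qq w a k * ((2 : ℝ) ^ (2 * (σ * m + e * Λ)) * E (2 ^ a))
            ≤ (2 : ℝ) ^ (2 * σ' * u - 2 * σ * m + e * Λ) * qq w a k
              * ((2 : ℝ) ^ (2 * (σ * m + e * Λ)) * E (2 ^ a)) := by
              have := (P_pos (2 * (σ * m + e * Λ))).le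
              gcongr
          _ = (2 : ℝ) ^ (2 * σ' * u - 2 * σ * m + e * Λ + ((fkk - fa - m) / 2)
                + 2 * (σ * m + e * Λ)) * E (2 ^ a) := by
              rw [hq, ← mul_assoc, P_add, P_add]
          _ ≤ _ := by
              refine mul_le_mul_of_nonneg_right (P_mono ?_) hEapos.le
              -- `(1-ν)/2 * m ≥ σ' u - 1`
              have h4 : σ' * u - 1 ≤ (1 - ν) / 2 * m := by
                have h5 : (1 - ν) / 2 * (b * u - 1) ≤ (1 - ν) / 2 * m :=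
                  mul_le_mul_of_nonneg_left hm2.le (by linarith)
                have h6 : σ' ≤ (1 - ν) / 2 * b := by
                  rw [hb, mul_div_assoc', le_div_iff₀ h12]
                  linarith
                have h7 : σ' * u ≤ (1 - ν) / 2 * b * u := mul_le_mul_of_nonneg_right h6 hu0
                have h8 : (1 - ν) / 2 ≤ 1 := by
                  have : 0 ≤ ν := by linarith only [x1, hσ'0, hc₁]
                  linarith only [this]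
                linarith only [h5, h7, h8]
              rw [hX]
              linarith only [fk.2, h4, hδΛ0]
      have hsum : (n / (2 : ℝ) ^ (l - k)) * (E (2 ^ l) + Real.sqrt ((2 : ℝ) ^ (l - k)) * A
          + (2 : ℝ) ^ (l - k) * qq w a k * A ^ 2 / E (2 ^ a)) + Real.sqrt n * A
          ≤ 4 * ((2 : ℝ) ^ X * E (2 ^ a)) := by
        rw [mul_add, mul_add]
        linarith
      calc _ ≤ (2 : ℝ) ^ (e / 4 * (Λ : ℝ)) * (4 * ((2 : ℝ) ^ X * E (2 ^ a))) :=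
            mul_le_mul_of_nonneg_left hsum (P_pos _).le
        _ = (2 : ℝ) ^ (e / 4 * (Λ : ℝ) + 2 + X) * E (2 ^ a) := P_four _ _ _
        _ ≤ _ := by
            refine mul_le_mul_of_nonneg_right (P_mono ?_) hEapos.le
            have h2 : 16 * (e * Λ) ≤ 16 / c₁ * e * Λ := by
              have := mul_le_mul_of_nonneg_right hR1 hΛ0
              linarith
            rw [hX]
            linarith only [h2, hΛe, hδΛ, hδΛ0]

end Pool.Agent.W_7d29a1_Z95
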