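import Pool.Agent.W_7d29a1_Z95.AlgW

/-!
# Superdiffusivity at all scales from the interface `Iface`
-/

namespace Pool.Agent.W_7d29a1_Z95

open Finset Pool.Agent.W_7d29a1_21z

/-- finitely many steps -/
lemma inv_iter (w E : ℕ → ℝ) (Adm : ℝ → ℕ → ℕ → ℕ → ℕ → ℝ → Prop) (hI : Iface w E Adm)
    (hw : ∀ k : ℕ, 0 < w (2 ^ k)) (hE : ∀ k : ℕ, 0 < E (2 ^ k))
    (c₁ : ℝ) (hc₁ : 0 < c₁) (hc₁1 : c₁ ≤ 1) (κ : ℝ) (hκ : 0 < κ) (δ e₀ : ℝ) (hδ : 0 < δ)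
    (he : 4 * δ ≤ e₀) (i : ℕ) :
    ∃ c : ℝ, 0 < c ∧ ∃ a₀ : ℕ, ∀ a Λ : ℕ, ∀ ν χ : ℝ, a₀ ≤ a → κ * (a : ℝ) ≤ Λ → Λ ≤ a →
      Lin (fun k => Real.logb 2 (w (2 ^ k))) a Λ ν δ →
      Lin (fun k => Real.logb 2 (E (2 ^ k))) a Λ χ δ →
      ν < 1 / 2 + c₁ ^ 2 / 32 → 1 + c₁ ≤ ν + 2 * χ →
      (∀ j : ℕ, j < i → (j : ℝ) * (c₁ ^ 2 / 64) ≤ ν - χ + c₁ ^ 2 / 64) →
      Inv E Adm a Λ c ((i : ℝ) * (c₁ ^ 2 / 64)) ((16 / c₁) ^ i * e₀) := by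
  have he0 : 0 < e₀ := by linarith
  have hR : (1 : ℝ) ≤ 16 / c₁ := by
    rw [le_div_iff₀ hc₁]; linarith
  induction i with
  | zero =>
    obtain ⟨cb, hcb, ab, hbase⟩ := hI.base κ e₀ hκ he0
    refine ⟨cb, hcb, ab, ?_⟩
    intro a Λ ν χ ha hκΛ hΛa _ _ _ _ _ k hak hkΛ
    refine ⟨1, le_rfl, ?_, ?_, ?_⟩
    · rw [Nat.cast_one]
      have h1 : 2 * (((0 : ℕ) : ℝ) * (c₁ ^ 2 / 64)) * ((k : ℝ) - a) - (16 / c₁) ^ 0 * e₀ * Λ ≤ 0 := by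
        have : 0 ≤ e₀ * Λ := by positivity
        simp only [Nat.cast_zero, zero_mul, mul_zero, pow_zero, one_mul, zero_sub]
        linarith
      calc _ ≤ (2 : ℝ) ^ (0 : ℝ) := P_mono h1
        _ = 1 := Real.rpow_zero 2
    · simp
    · have h := hbase a Λ k ha hκΛ hΛa hak hkΛ
      simpa using h
  | succ i ih =>
    obtain ⟨c, hc, a₀, hInv⟩ := ih
    have hei : 4 * δ ≤ (16 / c₁) ^ i * e₀ := by
      have h1 : (1 : ℝ) ≤ (16 / c₁) ^ i := one_le_pow₀ hR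
      nlinarith
    obtain ⟨c', hc', a₁, hstep⟩ := inv_step w E Adm hI hw hE c₁ hc₁ hc₁1 κ hκ δ
      ((16 / c₁) ^ i * e₀) c ((i : ℝ) * (c₁ ^ 2 / 64)) hδ hei hc (by positivity)
    refine ⟨c', hc', a₀ + a₁, ?_⟩
    intro a Λ ν χ ha hκΛ hΛa hf hg hν hNP hj
    have h1 := hInv a Λ ν χ (by omega) hκΛ hΛa hf hg hν hNP (fun j hji => hj j (by omega))
    have h2 := hstep a Λ ν χ (by omega) hκΛ hΛa hf hg hν hNP (hj i (Nat.lt_succ_self i)) h1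
    have e1 : (((i + 1 : ℕ) : ℝ)) * (c₁ ^ 2 / 64) = (i : ℝ) * (c₁ ^ 2 / 64) + c₁ ^ 2 / 64 := by
      push_cast; ring
    have e2 : (16 / c₁) ^ (i + 1) * e₀ = 16 / c₁ * ((16 / c₁) ^ i * e₀) := by ring
    rw [e1, e2]
    exact h2

/-- contradiction at the top of the window -/
lemma top_contra (w E : ℕ → ℝ) (Adm : ℝ → ℕ → ℕ → ℕ → ℕ → ℝ → Prop) (hI : Iface w E Adm)
    (hw : ∀ k : ℕ, 0 < w (2 ^ k)) (hE : ∀ k : ℕ, 0 < E (2 ^ k)) (κ : ℝ) (hκ : 0 < κ)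
    (c e₀ : ℝ) (hc : 0 < c) (he₀ : 0 < e₀) :
    ∃ a₀ : ℕ, ∀ a Λ : ℕ, ∀ ν χ δ σ e : ℝ, a₀ ≤ a → κ * (a : ℝ) ≤ Λ → Λ ≤ a →
      Lin (fun k => Real.logb 2 (w (2 ^ k))) a Λ ν δ →
      Lin (fun k => Real.logb 2 (E (2 ^ k))) a Λ χ δ →
      e₀ + δ ≤ ν - 2 * σ → Inv E Adm a Λ c σ e → σ ≤ ν - χ + 2 * δ + e₀ + 2 * e := by
  obtain ⟨a₀, htop⟩ := hI.top κ c e₀ hκ hc he₀
  obtain ⟨a1, ha1⟩ : ∃ a1 : ℕ, 1 / κ < a1 := exists_nat_gt _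
  refine ⟨a₀ + a1, ?_⟩
  intro a Λ ν χ δ σ e ha hκΛ hΛa hf hg hcond hInv
  have hΛ1 : (1 : ℝ) ≤ Λ := by
    have h1 : (a1 : ℝ) ≤ a := by
      have : a1 ≤ a := by omega
      exact_mod_cast this
    rw [div_lt_iff₀ hκ] at ha1
    have h2 : a1 * κ ≤ a * κ := mul_le_mul_of_nonneg_right h1 hκ.le
    linarith
  have hΛ0 : (0 : ℝ) < Λ := by linarith
  obtain ⟨z, hz1, hzlow, hzup, hzA⟩ := hInv (a + Λ) (by omega) le_rfl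
  have hka : (((a + Λ : ℕ) : ℝ)) - a = Λ := by push_cast; ring
  rw [hka] at hzlow hzup hzA
  have hzpos : (0 : ℝ) < z := by exact_mod_cast hz1
  have fl := hf Λ le_rfl
  have gl := hg Λ le_rfl
  simp only at fl gl
  rw [abs_le] at fl gl
  set fa := Real.logb 2 (w (2 ^ a)) with hfa
  set fl' := Real.logb 2 (w (2 ^ (a + Λ))) with hfl'
  set ga := Real.logb 2 (E (2 ^ a)) with hga
  set gl' := Real.logb 2 (E (2 ^ (a + Λ))) with hgl'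
  have ewa : w (2 ^ a) = (2 : ℝ) ^ fa := P_logb (hw a)
  have ewl : w (2 ^ (a + Λ)) = (2 : ℝ) ^ fl' := P_logb (hw _)
  have eEa : E (2 ^ a) = (2 : ℝ) ^ ga := P_logb (hE a)
  have eEl : E (2 ^ (a + Λ)) = (2 : ℝ) ^ gl' := P_logb (hE _)
  have hcondΛ : (e₀ + δ) * Λ ≤ (ν - 2 * σ) * Λ := mul_le_mul_of_nonneg_right hcond hΛ0.le
  have hc1 : (2 : ℝ) ^ (e₀ * (Λ : ℝ)) * (z * w (2 ^ a)) ≤ w (2 ^ (a + Λ)) := by
    have h1 : (2 : ℝ) ^ (e₀ * (Λ : ℝ)) * (z * w (2 ^ a))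
        ≤ (2 : ℝ) ^ (e₀ * (Λ : ℝ)) * ((2 : ℝ) ^ (2 * σ * Λ) * w (2 ^ a)) := by
      have := (hw a).le
      gcongr
    refine le_trans h1 ?_
    rw [ewa, ewl, P_add, P_add]
    refine P_mono ?_
    linarith only [fl.1, hcondΛ]
  have h2 := htop a Λ z _ (by omega) hκΛ hΛa hzA hz1 hc1
  have h3 : (2 : ℝ) ^ (e₀ * (Λ : ℝ)) * (w (2 ^ (a + Λ)) / (z * w (2 ^ a)))
      * ((2 : ℝ) ^ (σ * Λ + e * Λ) * E (2 ^ a))
      ≤ (2 : ℝ) ^ (e₀ * Λ + (fl' - (2 * σ * Λ - e * Λ + fa)) + (σ * Λ + e * Λ + ga)) := by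
    have hzw : (2 : ℝ) ^ (2 * σ * Λ - e * Λ + fa) ≤ z * w (2 ^ a) := by
      rw [← P_add, ewa]
      exact mul_le_mul_of_nonneg_right hzlow (P_pos _).le
    have h4 : w (2 ^ (a + Λ)) / (z * w (2 ^ a))
        ≤ (2 : ℝ) ^ (fl' - (2 * σ * Λ - e * Λ + fa)) := by
      rw [Real.rpow_sub two_pos, ewl]
      exact div_le_div_of_nonneg_left (P_pos _).le (P_pos _) hzw
    have h5 : (2 : ℝ) ^ (σ * Λ + e * Λ) * E (2 ^ a) = (2 : ℝ) ^ (σ * Λ + e * Λ + ga) := by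
      rw [eEa, P_add]
    have h6 := (P_pos (e₀ * Λ)).le
    have h7 := (P_pos (σ * Λ + e * Λ + ga)).le
    have e9 : (2 : ℝ) ^ (e₀ * Λ + (fl' - (2 * σ * Λ - e * Λ + fa)) + (σ * Λ + e * Λ + ga))
        = (2 : ℝ) ^ (e₀ * Λ) * (2 : ℝ) ^ (fl' - (2 * σ * Λ - e * Λ + fa))
          * (2 : ℝ) ^ (σ * Λ + e * Λ + ga) := by
      rw [P_add, P_add]
    rw [h5, e9]
    exact mul_le_mul_of_nonneg_right (mul_le_mul_of_nonneg_left h4 h6) h7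
  have h4 : gl' ≤ e₀ * Λ + (fl' - (2 * σ * Λ - e * Λ + fa)) + (σ * Λ + e * Λ + ga) := by
    refine P_le ?_
    rw [← eEl]
    exact le_trans h2 h3
  have h5 : σ * Λ ≤ (ν - χ + 2 * δ + e₀ + 2 * e) * Λ := by
    linarith only [h4, fl.2, gl.1]
  exact le_of_mul_le_mul_right h5 hΛ0

/-- **one window** : the exponent of `w` is at least `1/2 + c₁²/32` -/
theorem window_alg (w E : ℕ → ℝ) (Adm : ℝ → ℕ → ℕ → ℕ → ℕ → ℝ → Prop) (hI : Iface w E Adm)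
    (hw : ∀ k : ℕ, 0 < w (2 ^ k)) (hE : ∀ k : ℕ, 0 < E (2 ^ k))
    (c₁ : ℝ) (hc₁ : 0 < c₁) (hc₁1 : c₁ ≤ 1) :
    ∃ δ : ℝ, 0 < δ ∧ δ ≤ c₁ / 8 ∧ ∀ κ : ℝ, 0 < κ → ∃ a₀ : ℕ, ∀ a Λ : ℕ, ∀ ν χ : ℝ, a₀ ≤ a →
      κ * (a : ℝ) ≤ Λ → Λ ≤ a →
      Lin (fun k => Real.logb 2 (w (2 ^ k))) a Λ ν δ →
      Lin (fun k => Real.logb 2 (E (2 ^ k))) a Λ χ δ →
      1 + c₁ ≤ ν + 2 * χ → c₁ / 2 ≤ ν → 1 / 2 + c₁ ^ 2 / 32 ≤ ν := by
  set γ : ℝ := c₁ ^ 2 / 64 with hγ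
  have hγ0 : 0 < γ := by positivity
  have hc2 : c₁ ^ 2 ≤ c₁ := by nlinarith
  obtain ⟨N, hN⟩ : ∃ N : ℕ, 2 / γ < N := exists_nat_gt _
  rw [div_lt_iff₀ hγ0] at hN
  have hR : (1 : ℝ) ≤ 16 / c₁ := by
    rw [le_div_iff₀ hc₁]; linarith
  have hRpos : 0 < 16 / c₁ := by positivity
  set e₀ : ℝ := γ / 16 / (16 / c₁) ^ N with he₀
  have he₀0 : 0 < e₀ := by positivity
  have he₀1 : e₀ ≤ γ / 16 := by
    rw [he₀]
    exact div_le_self (by positivity) (one_le_pow₀ hR)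
  refine ⟨e₀ / 4, by positivity, by nlinarith, fun κ hκ => ?_⟩
  have hiter := fun i => inv_iter w E Adm hI hw hE c₁ hc₁ hc₁1 κ hκ (e₀ / 4) e₀ (by positivity)
    (by linarith) i
  choose c hc A hA using hiter
  have htop := fun i => top_contra w E Adm hI hw hE κ hκ (c i) e₀ (hc i) he₀0
  choose T hT using htop
  refine ⟨∑ i ∈ range (N + 1), (A i + T i), ?_⟩
  intro a Λ ν χ ha hκΛ hΛa hf hg hNP hν0
  by_contra hcon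
  push Not at hcon
  have hle : ∀ i, i ≤ N → A i ≤ a ∧ T i ≤ a := by
    intro i hi
    have h1 : A i + T i ≤ ∑ i ∈ range (N + 1), (A i + T i) :=
      Finset.single_le_sum (f := fun i => A i + T i) (fun _ _ => Nat.zero_le _)
        (Finset.mem_range.2 (by omega))
    omega
  -- the first step beyond the limit
  have hex : ∃ i : ℕ, ν - χ + γ / 2 < (i : ℝ) * γ := ⟨N, by nlinarith⟩
  classical
  set i := Nat.find hex with hi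
  have hi1 : ν - χ + γ / 2 < (i : ℝ) * γ := Nat.find_spec hex
  have hi2 : ∀ j : ℕ, j < i → (j : ℝ) * γ ≤ ν - χ + γ / 2 := by
    intro j hj
    have := Nat.find_min hex hj
    push Not at this
    exact this
  have hiN : i ≤ N := Nat.find_min' hex (by nlinarith)
  obtain ⟨hAa, hTa⟩ := hle i hiN
  have hInv := hA i a Λ ν χ hAa hκΛ hΛa hf hg hcon hNP
    (fun j hj => by have := hi2 j hj; rw [← hγ]; linarith)
  rw [← hγ] at hInv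
  -- the error
  have hei : (16 / c₁) ^ i * e₀ ≤ γ / 16 := by
    rw [he₀, ← mul_div_assoc, div_le_iff₀ (by positivity)]
    have h1 : (16 / c₁) ^ i ≤ (16 / c₁) ^ N := pow_le_pow_right₀ hR hiN
    nlinarith
  -- the condition of the top step
  have hcond : e₀ + e₀ / 4 ≤ ν - 2 * ((i : ℝ) * γ) := by
    rcases Nat.eq_zero_or_pos i with h0 | h0
    · rw [h0]
      simp only [Nat.cast_zero, zero_mul, mul_zero, sub_zero]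
      nlinarith
    · have h1 := hi2 (i - 1) (by omega)
      have h2 : ((i - 1 : ℕ) : ℝ) = (i : ℝ) - 1 := by
        rw [Nat.cast_sub h0]; simp
      rw [h2] at h1
      nlinarith
  have hfin := hT i a Λ ν χ (e₀ / 4) ((i : ℝ) * γ) ((16 / c₁) ^ i * e₀) hTa hκΛ hΛa hf hg hcond
    hInv
  linarith

end Pool.Agent.W_7d29a1_Z95
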