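import Pool.Agent.W_7d29a1_Z95.AlgW2
import Pool.Agent.W_7d29a1_21z.Closing

/-!
# The end: growth of the widths at all scales from `Iface`
-/

namespace Pool.Agent.W_7d29a1_Z95

open Finset Filter Pool.Agent.W_7d29a1_21z

lemma logb_two_pow (k : ℕ) : Real.logb 2 ((2 ^ k : ℕ) : ℝ) = k := by
  push_cast
  rw [Real.logb_pow, Real.logb_self_eq_one (by norm_num)]
  ring

/-- **the end on the logarithmic scale** -/
theorem end_log (w E : ℕ → ℝ) (Adm : ℝ → ℕ → ℕ → ℕ → ℕ → ℝ → Prop) (hI : Iface w E Adm)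
    (hwpos : ∀ n, 0 < w n) (hEpos : ∀ n, 0 < E n) (n₁ : ℕ) (C c : ℝ) (hC : 1 ≤ C) (hc : 0 < c)
    (hw : ∀ m n : ℕ, n₁ ≤ m → m ≤ n → w m ≤ C * w n ∧ w n ≤ C * ((n : ℝ) / m) * w m)
    (hE : ∀ m n : ℕ, n₁ ≤ m → m ≤ n → E m ≤ C * E n ∧ E n ≤ C * ((n : ℝ) / m) * E m)
    (hNP : ∀ m n : ℕ, n₁ ≤ m → m ≤ n →
      c * ((n : ℝ) / m) ^ (1 + c) * (w m * E m ^ 2) ≤ w n * E n ^ 2)
    (hsub : ∀ m n : ℕ, n₁ ≤ m → m ≤ n → E n ≤ C * ((n : ℝ) / m) ^ (1 / 2 : ℝ) * E m) :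
    ∃ c' : ℝ, 0 < c' ∧ ∀ η : ℝ, 0 < η → ∃ t₁ : ℕ, ∀ s t : ℕ, t₁ ≤ s → (1 + η) * (s : ℝ) ≤ t →
      (1 / 2 + c') * ((t : ℝ) - (s : ℝ)) ≤ Real.logb 2 (w (2 ^ t)) - Real.logb 2 (w (2 ^ s)) := by
  have hC0 : 0 ≤ Real.logb 2 C := Real.logb_nonneg (by norm_num) hC
  have hCpos : 0 < C := by linarith
  set f : ℕ → ℝ := fun k => Real.logb 2 (w (2 ^ k)) with hf
  set g : ℕ → ℝ := fun k => Real.logb 2 (E (2 ^ k)) with hg
  have hLf : LipFrom f (1 + Real.logb 2 C) n₁ := lip_of_reg w C n₁ hC (fun n _ => hwpos n) hw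
  have hLg : LipFrom g (1 + Real.logb 2 C) n₁ := lip_of_reg E C n₁ hC (fun n _ => hEpos n) hE
  have hpow : ∀ s : ℕ, n₁ ≤ s → n₁ ≤ 2 ^ s := fun s hs => le_trans hs (Nat.lt_two_pow_self).le
  -- strict Newman-Piza on the log scale
  have hNP' : ∀ s t : ℕ, n₁ ≤ s → s ≤ t →
      (1 + c) * ((t : ℝ) - (s : ℝ)) - (-Real.logb 2 c) ≤ (f t - f s) + 2 * (g t - g s) := by
    intro s t hs hst
    have h2st : 2 ^ s ≤ 2 ^ t := Nat.pow_le_pow_right (by norm_num) hst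
    have h := hNP _ _ (hpow s hs) h2st
    have hws := hwpos (2 ^ s)
    have hwt := hwpos (2 ^ t)
    have hss := hEpos (2 ^ s)
    have hstt := hEpos (2 ^ t)
    have hpt : (0 : ℝ) < ((2 ^ t : ℕ) : ℝ) := by positivity
    have hps : (0 : ℝ) < ((2 ^ s : ℕ) : ℝ) := by positivity
    have hlhs : 0 < c * (((2 ^ t : ℕ) : ℝ) / ((2 ^ s : ℕ) : ℝ)) ^ (1 + c)
        * (w (2 ^ s) * E (2 ^ s) ^ 2) := by positivity
    have h3 := Real.logb_le_logb_of_le (b := 2) (by norm_num) hlhs h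
    rw [Real.logb_mul (by positivity) (by positivity), Real.logb_mul hc.ne' (by positivity),
      Real.logb_rpow_eq_mul_logb_of_pos (by positivity), Real.logb_div hpt.ne' hps.ne',
      Real.logb_mul hws.ne' (by positivity), Real.logb_mul hwt.ne' (by positivity),
      Real.logb_pow, Real.logb_pow, logb_two_pow, logb_two_pow] at h3
    push_cast at h3
    simp only [hf, hg]
    linarith
  -- submultiplicativity
  have hsub' : ∀ s t : ℕ, n₁ ≤ s → s ≤ t →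
      g t - g s ≤ 1 / 2 * ((t : ℝ) - (s : ℝ)) + Real.logb 2 C := by
    intro s t hs hst
    have h2st : 2 ^ s ≤ 2 ^ t := Nat.pow_le_pow_right (by norm_num) hst
    have h := hsub _ _ (hpow s hs) h2st
    have hss := hEpos (2 ^ s)
    have hstt := hEpos (2 ^ t)
    have hpt : (0 : ℝ) < ((2 ^ t : ℕ) : ℝ) := by positivity
    have hps : (0 : ℝ) < ((2 ^ s : ℕ) : ℝ) := by positivity
    have h3 := Real.logb_le_logb_of_le (b := 2) (by norm_num) hstt h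
    rw [Real.logb_mul (by positivity) hss.ne', Real.logb_mul hCpos.ne' (by positivity),
      Real.logb_rpow_eq_mul_logb_of_pos (by positivity), Real.logb_div hpt.ne' hps.ne',
      logb_two_pow, logb_two_pow] at h3
    simp only [hg]
    linarith
  -- constants
  set c₁ : ℝ := min c 1 / 2 with hc₁
  have hm0 : 0 < min c 1 := lt_min hc one_pos
  have hc₁0 : 0 < c₁ := by positivity
  have hc₁1 : c₁ ≤ 1 := by
    have := min_le_right c 1
    rw [hc₁]; linarith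
  have hc₁c : 2 * c₁ ≤ c := by
    have := min_le_left c 1
    rw [hc₁]; linarith
  obtain ⟨δ, hδ, hδc, halg⟩ := window_alg w E Adm hI (fun k => hwpos _) (fun k => hEpos _) c₁ hc₁0
    hc₁1
  set θ : ℝ := 1 / 2 + c₁ ^ 2 / 32 with hθ
  refine ⟨c₁ ^ 2 / 64, by positivity, ?_⟩
  have hwin : ∀ dl : ℝ, 0 < dl → ∃ a₀ : ℕ, ∀ a : ℕ, a₀ ≤ a → ∀ Λ : ℕ, dl * (a : ℝ) ≤ Λ →
      (Λ : ℝ) ≤ 1 * a → EpsLin f δ a Λ → EpsLin g δ a Λ → θ * (Λ : ℝ) ≤ f (a + Λ) - f a := by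
    intro dl hdl
    obtain ⟨a₀, ha₀⟩ := halg dl hdl
    obtain ⟨a1, ha1⟩ : ∃ a1 : ℕ, (|Real.logb 2 c| + 4 * Real.logb 2 C + 1) / (c₁ * dl) < a1 :=
      exists_nat_gt _
    refine ⟨a₀ + a1 + n₁, ?_⟩
    intro a ha Λ hΛ1 hΛ2 hfl hgl
    have hΛa : Λ ≤ a := by
      rw [one_mul] at hΛ2
      exact_mod_cast hΛ2
    have hbig : |Real.logb 2 c| + 4 * Real.logb 2 C + 1 ≤ c₁ * Λ := by
      rw [div_lt_iff₀ (by positivity)] at ha1
      have h1 : (a1 : ℝ) ≤ a := by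
        have : a1 ≤ a := by omega
        exact_mod_cast this
      have h2 : (a1 : ℝ) * (c₁ * dl) ≤ a * (c₁ * dl) :=
        mul_le_mul_of_nonneg_right h1 (by positivity)
      have h3 : c₁ * (dl * a) ≤ c₁ * Λ := mul_le_mul_of_nonneg_left hΛ1 hc₁0.le
      linarith
    have habs := abs_nonneg (Real.logb 2 c)
    have hΛ0 : (0 : ℝ) < Λ := by
      by_contra hcon
      push Not at hcon
      have : c₁ * (Λ : ℝ) ≤ 0 := mul_nonpos_of_nonneg_of_nonpos hc₁0.le hcon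
      linarith
    set ν : ℝ := (f (a + Λ) - f a) / Λ with hν
    set χ : ℝ := (g (a + Λ) - g a) / Λ with hχ
    have hνΛ : f (a + Λ) - f a = ν * Λ := by rw [hν]; field_simp
    have hχΛ : g (a + Λ) - g a = χ * Λ := by rw [hχ]; field_simp
    have hL1 : Lin f a Λ ν δ := by
      intro t ht
      have := hfl t ht
      have e : (f (a + Λ) - f a) * ((t : ℝ) / (Λ : ℝ)) = ν * t := by rw [hν]; ring
      rwa [e] at this
    have hL2 : Lin g a Λ χ δ := by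
      intro t ht
      have := hgl t ht
      have e : (g (a + Λ) - g a) * ((t : ℝ) / (Λ : ℝ)) = χ * t := by rw [hχ]; ring
      rwa [e] at this
    have h3 : (((a + Λ : ℕ) : ℝ) - ((a : ℕ) : ℝ)) = Λ := by push_cast; ring
    have h4 := hNP' a (a + Λ) (by omega) (by omega)
    have h5 := hsub' a (a + Λ) (by omega) (by omega)
    rw [h3, hνΛ, hχΛ] at h4
    rw [h3, hχΛ] at h5
    have hneg := neg_abs_le (Real.logb 2 c)
    have hNPw : 1 + c₁ ≤ ν + 2 * χ := by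
      have h6 : 2 * c₁ * Λ ≤ c * Λ := mul_le_mul_of_nonneg_right hc₁c hΛ0.le
      have h7 : (1 + c₁) * Λ ≤ (ν + 2 * χ) * Λ := by linarith
      exact le_of_mul_le_mul_right h7 hΛ0
    have hν0 : c₁ / 2 ≤ ν := by
      have h6 : χ * Λ ≤ (1 / 2 + c₁ / 4) * Λ := by linarith
      have h7 : χ ≤ 1 / 2 + c₁ / 4 := le_of_mul_le_mul_right h6 hΛ0
      linarith
    have h6 := ha₀ a Λ ν χ (by omega) hΛ1 hΛa hL1 hL2 hNPw hν0
    rw [hνΛ, hθ]
    exact mul_le_mul_of_nonneg_right h6 hΛ0.le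
  intro η hη
  obtain ⟨t₁, ht₁⟩ := windowsPoly f g (1 + Real.logb 2 C) n₁ (by linarith) hLf hLg δ θ 1 hδ one_pos
    hwin (min η (c₁ ^ 2 / 64)) (lt_min hη (by positivity))
  refine ⟨t₁, fun s t hs hst => ?_⟩
  have hs0 : (0 : ℝ) ≤ s := Nat.cast_nonneg _
  have h1 : (1 + min η (c₁ ^ 2 / 64)) * (s : ℝ) ≤ t := by
    have : min η (c₁ ^ 2 / 64) * (s : ℝ) ≤ η * s := mul_le_mul_of_nonneg_right (min_le_left _ _) hs0
    linarith
  have h2 := ht₁ s t hs h1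
  have h3 : 0 ≤ (t : ℝ) - s := by nlinarith
  have h4 : (1 / 2 + c₁ ^ 2 / 64) * ((t : ℝ) - s) ≤ (θ - min η (c₁ ^ 2 / 64)) * ((t : ℝ) - s) := by
    refine mul_le_mul_of_nonneg_right ?_ h3
    have := min_le_right η (c₁ ^ 2 / 64)
    rw [hθ]; linarith
  exact le_trans h4 h2

/-- **superdiffusive at all large scales** -/
theorem end_eventually (w E : ℕ → ℝ) (Adm : ℝ → ℕ → ℕ → ℕ → ℕ → ℝ → Prop) (hI : Iface w E Adm)
    (hwpos : ∀ n, 0 < w n) (hEpos : ∀ n, 0 < E n) (n₁ : ℕ) (C c : ℝ) (hC : 1 ≤ C) (hc : 0 < c)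
    (hw : ∀ m n : ℕ, n₁ ≤ m → m ≤ n → w m ≤ C * w n ∧ w n ≤ C * ((n : ℝ) / m) * w m)
    (hE : ∀ m n : ℕ, n₁ ≤ m → m ≤ n → E m ≤ C * E n ∧ E n ≤ C * ((n : ℝ) / m) * E m)
    (hNP : ∀ m n : ℕ, n₁ ≤ m → m ≤ n →
      c * ((n : ℝ) / m) ^ (1 + c) * (w m * E m ^ 2) ≤ w n * E n ^ 2)
    (hsub : ∀ m n : ℕ, n₁ ≤ m → m ≤ n → E n ≤ C * ((n : ℝ) / m) ^ (1 / 2 : ℝ) * E m) :
    ∃ c' : ℝ, 0 < c' ∧ ∀ᶠ n : ℕ in atTop, (n : ℝ) ^ (1 / 2 + c') ≤ w n := by
  obtain ⟨c', hc', h⟩ := end_log w E Adm hI hwpos hEpos n₁ C c hC hc hw hE hNP hsub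
  obtain ⟨t₁, ht₁⟩ := h 1 one_pos
  have hCpos : 0 < C := by linarith
  -- a fixed start
  set s : ℕ := t₁ + n₁ with hs
  set K : ℝ := (1 / 2 + c') * s - Real.logb 2 (w (2 ^ s)) + (1 / 2 + c') + Real.logb 2 C with hK
  obtain ⟨J, hJ⟩ : ∃ J : ℕ, 2 * |K| / c' < J := exists_nat_gt _
  refine ⟨c' / 2, by positivity, ?_⟩
  filter_upwards [eventually_ge_atTop (2 ^ (2 * s + J + 1))] with n hn
  have hn0 : 0 < n := lt_of_lt_of_le (by positivity) hn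
  have hnR : (0 : ℝ) < n := by exact_mod_cast hn0
  set j := Nat.log 2 n with hj
  have hjn : 2 ^ j ≤ n := Nat.pow_log_le_self 2 hn0.ne'
  have hjn' : n < 2 ^ (j + 1) := Nat.lt_pow_succ_log_self (by norm_num) n
  have hjs : 2 * s + J + 1 ≤ j := by
    by_contra hcon
    push Not at hcon
    have : 2 ^ (j + 1) ≤ 2 ^ (2 * s + J + 1) := Nat.pow_le_pow_right (by norm_num) (by omega)
    omega
  have hst : (1 + 1) * (s : ℝ) ≤ j := by
    have : 2 * s ≤ j := by omega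
    have : ((2 * s : ℕ) : ℝ) ≤ j := by exact_mod_cast this
    push_cast at this
    linarith
  have h1 := ht₁ s j (by omega) hst
  have hn1j : n₁ ≤ 2 ^ j := le_trans (by omega) (Nat.lt_two_pow_self (n := j)).le
  have h2 := (hw (2 ^ j) n hn1j hjn).1
  -- compare on the log scale
  have h3 : Real.logb 2 (w (2 ^ j)) ≤ Real.logb 2 C + Real.logb 2 (w n) := by
    rw [← Real.logb_mul hCpos.ne' (hwpos n).ne']
    exact Real.logb_le_logb_of_le (by norm_num) (hwpos _) h2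
  have h4 : Real.logb 2 n ≤ j + 1 := by
    have h5 : (n : ℝ) ≤ ((2 ^ (j + 1) : ℕ) : ℝ) := by exact_mod_cast hjn'.le
    have h6 := Real.logb_le_logb_of_le (b := 2) (by norm_num) hnR h5
    rw [logb_two_pow] at h6
    push_cast at h6
    exact h6
  have h5 : Real.logb 2 ((n : ℝ) ^ (1 / 2 + c' / 2)) ≤ Real.logb 2 (w n) := by
    rw [Real.logb_rpow_eq_mul_logb_of_pos hnR]
    have h6 : (1 / 2 + c' / 2) * Real.logb 2 n ≤ (1 / 2 + c' / 2) * (j + 1) :=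
      mul_le_mul_of_nonneg_left h4 (by positivity)
    have h7 : |K| ≤ c' / 2 * j := by
      rw [div_lt_iff₀ hc'] at hJ
      have h8 : (J : ℝ) ≤ j := by
        have : J ≤ j := by omega
        exact_mod_cast this
      nlinarith
    have h8 := le_abs_self K
    rw [hK] at h8
    rw [hK] at h7
    nlinarith
  exact (Real.logb_le_logb (by norm_num) (by positivity) (hwpos n)).1 h5

end Pool.Agent.W_7d29a1_Z95
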