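import Pool.Agent.W_7d29a1_Z95.BaseW
import Pool.Agent.W_7d29a1_Z57.FinE57
import Pool.Agent.W_7d29a1_Z.NS

/-!
STORM Z (MP_7d29a1_pr), second storey: the base `BaseE` of the interface. (helper95)
-/

namespace Pool.Agent.W_7d29a1_Z95

open MeasureTheory Pool.Agent.W_7d29a1_F Pool.Agent.W_7d29a1_X Pool.Agent.W_7d29a1_Z Pool.Agent.W_7d29a1_G
open Pool.Agent.W_7d29a1_SR (In)

variable {μ : Measure ℝ} [IsProbabilityMeasure μ] {c C : ℝ} {n₀ : ℕ}

/-- `BaseE` from the statement of NS. -/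
theorem baseE_of (h : In μ c C n₀) (hF : HF2 μ) (hns : Pool.Agent.W_7d29a1_Z74.NSs μ) : Pool.Agent.W_7d29a1_Z57.BaseE μ :=
  base_bunch h hF hns

/-- **`BaseE`.** -/
theorem baseE (h : In μ c C n₀) (hF : HF2 μ) : Pool.Agent.W_7d29a1_Z57.BaseE μ :=
  baseE_of h hF fun ε hε => ns h hF ε hε

end Pool.Agent.W_7d29a1_Z95
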